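import Pool.Agent.Lib_MP_53dcbc_np.Defs

/-!
# [NP-C] The number of codes

PROOF. Let `n = 2 a`, `w = ww a d m`, `h = hh d`. The triple `(N, E, F)` is determined by its values on
`Fin n`: `N` is one of `(p ^ n + 1) ^ n` functions `Fin n → Fin (p ^ n + 1)`. Given `N`: for every `i < n` the
function `E i` is one of `∏ l < i, N l ≤ ∏ l < n, N l = p ^ n` functions (all `N l ≥ 1`), and for a pair
`n - d ≤ i < j < n` the function `F i j` is one of `∏ l < m, N l = p ^ m` functions, and one of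
`∏ l < w, N l = p ^ w` if moreover `n - h ≤ i`; there are `d.choose 2` pairs `n - d ≤ i < j < n` and
`(h).choose 2` pairs `n - h ≤ i < j < n` (`d ≤ n`, `h ≤ d`). For the other pairs `F i j = 0`.
(Formally: an injection of `goodSet` into a finite set, for instance a `Finset.sigma` or `Finset.biUnion` over
`N` of products `Fintype.piFinset` of `Finset.range (N l)`.)
-/

set_option autoImplicit false

namespace Pool.Agent.Lib_MP_53dcbc_np

open Finset

private theorem bnd_np {ι : Type} (I : Finset ι) (b : ι → ℕ) :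
    {f : ι → ℕ | (∀ i ∈ I, f i < b i) ∧ ∀ i, i ∉ I → f i = 0}.Finite ∧
      {f : ι → ℕ | (∀ i ∈ I, f i < b i) ∧ ∀ i, i ∉ I → f i = 0}.ncard ≤ ∏ i ∈ I, b i := by
  classical
  set S : Set (ι → ℕ) := {f : ι → ℕ | (∀ i ∈ I, f i < b i) ∧ ∀ i, i ∉ I → f i = 0} with hS
  set t : Finset ((i : ι) → i ∈ I → ℕ) := I.pi fun i => range (b i) with ht
  have h1 : ∀ f ∈ S, (fun (i : ι) (_ : i ∈ I) => f i) ∈ (t : Set ((i : ι) → i ∈ I → ℕ)) := by
    intro f hf
    rw [Finset.mem_coe, ht, Finset.mem_pi]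
    intro i hi
    exact Finset.mem_range.2 (hf.1 i hi)
  have h2 : Set.InjOn (fun (f : ι → ℕ) (i : ι) (_ : i ∈ I) => f i) S := by
    intro f hf g hg hfg
    funext i
    by_cases hi : i ∈ I
    · exact congrFun (congrFun hfg i) hi
    · rw [hf.2 i hi, hg.2 i hi]
  refine ⟨Set.Finite.of_injOn h1 h2 t.finite_toSet, ?_⟩
  refine (Set.ncard_le_ncard_of_injOn _ h1 h2 t.finite_toSet).trans ?_
  rw [Set.ncard_coe_finset, ht, Finset.card_pi]
  simp

private theorem fib_np {α β : Type} (S : Set (α × β)) (A : Set α) (hA : A.Finite) (B : ℕ)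
    (h1 : ∀ c ∈ S, c.1 ∈ A)
    (h2 : ∀ a ∈ A, {b | (a, b) ∈ S}.Finite ∧ {b | (a, b) ∈ S}.ncard ≤ B) :
    S.Finite ∧ S.ncard ≤ A.ncard * B := by
  classical
  let T : α → Finset (α × β) := fun a =>
    if h : {b | (a, b) ∈ S}.Finite then h.toFinset.image (Prod.mk a) else ∅
  have hsub : S ⊆ ↑(hA.toFinset.biUnion T) := by
    intro c hc
    rw [Finset.mem_coe, Finset.mem_biUnion]
    have hcA := h1 c hc
    refine ⟨c.1, hA.mem_toFinset.2 hcA, ?_⟩
    simp only [T]
    rw [dif_pos (h2 c.1 hcA).1, Finset.mem_image]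
    exact ⟨c.2, (h2 c.1 hcA).1.mem_toFinset.2 hc, rfl⟩
  have hcard : (hA.toFinset.biUnion T).card ≤ hA.toFinset.card * B := by
    refine Finset.card_biUnion_le_card_mul _ _ _ fun a ha => ?_
    have haA := hA.mem_toFinset.1 ha
    simp only [T]
    rw [dif_pos (h2 a haA).1]
    refine Finset.card_image_le.trans ?_
    rw [← Set.ncard_eq_toFinset_card _ (h2 a haA).1]
    exact (h2 a haA).2
  refine ⟨(Finset.finite_toSet _).subset hsub, ?_⟩
  refine (Set.ncard_le_ncard hsub (Finset.finite_toSet _)).trans ?_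
  rw [Set.ncard_coe_finset, Set.ncard_eq_toFinset_card _ hA]
  exact hcard

/-- the pairs `k ≤ i < j < n` -/
private def prs_np (k n : ℕ) : Finset (ℕ × ℕ) :=
  (range n ×ˢ range n).filter fun q => k ≤ q.1 ∧ q.1 < q.2

private theorem sum_np (k d : ℕ) : ∑ j ∈ range (k + d), (j - k) = d.choose 2 := by
  induction d with
  | zero =>
    rw [Nat.add_zero, Nat.choose_eq_zero_of_lt (by norm_num)]
    exact Finset.sum_eq_zero fun j hj => by
      have := Finset.mem_range.1 hj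
      omega
  | succ d ih =>
    have h2 : (d + 1).choose 2 = d + d.choose 2 := by
      have h3 := Nat.choose_succ_succ' d 1
      rw [Nat.choose_one_right] at h3
      exact h3
    rw [← add_assoc, Finset.sum_range_succ, ih, h2]
    omega

private theorem card_prs_np (k d : ℕ) : (prs_np k (k + d)).card = d.choose 2 := by
  rw [← sum_np k d]
  unfold prs_np
  rw [Finset.card_filter, Finset.sum_product_right]
  refine Finset.sum_congr rfl fun j hj => ?_
  rw [← Finset.card_filter, ← Nat.card_Ico k j]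
  congr 1
  ext i
  rw [Finset.mem_filter, Finset.mem_range, Finset.mem_Ico]
  have := Finset.mem_range.1 hj
  constructor
  · rintro ⟨_, h1, h2⟩
    exact ⟨h1, h2⟩
  · rintro ⟨h1, h2⟩
    exact ⟨by omega, h1, h2⟩

private theorem card_prs2_np {n d : ℕ} (h : d ≤ n) : (prs_np (n - d) n).card = d.choose 2 := by
  have h1 := card_prs_np (n - d) d
  rwa [Nat.sub_add_cancel h] at h1

private theorem expo_np {n d e m w : ℕ} (hd : d ≤ n) (he : e ≤ d) :
    ∑ q ∈ prs_np (n - d) n, (if n - e ≤ q.1 then w else m) =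
      m * (d.choose 2 - e.choose 2) + w * e.choose 2 := by
  have h1 : (prs_np (n - d) n).filter (fun q => n - e ≤ q.1) = prs_np (n - e) n := by
    ext q
    unfold prs_np
    simp only [Finset.mem_filter, Finset.mem_product, Finset.mem_range]
    constructor
    · rintro ⟨⟨h1, h2, h3⟩, h4⟩
      exact ⟨h1, h4, h3⟩
    · rintro ⟨h1, h2, h3⟩
      exact ⟨⟨h1, by omega, h3⟩, h2⟩
  rw [Finset.sum_ite, Finset.sum_const, Finset.sum_const, h1, card_prs2_np (he.trans hd)]
  have h2 := Finset.card_filter_add_card_filter_not (s := prs_np (n - d) n) (fun q => n - e ≤ q.1)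
  rw [h1, card_prs2_np (he.trans hd), card_prs2_np hd] at h2
  have h3 : ((prs_np (n - d) n).filter (fun q => ¬ n - e ≤ q.1)).card =
      d.choose 2 - e.choose 2 := by omega
  rw [h3, smul_eq_mul, smul_eq_mul, mul_comm (e.choose 2), mul_comm (d.choose 2 - e.choose 2),
    add_comm]

/-- The codes with given `d`, `m`. -/
def goodSet (p a d m : ℕ) : Set ((ℕ → ℕ) × (ℕ → ℕ → ℕ) × (ℕ → ℕ → ℕ → ℕ)) :=
  {c | Good p a d m c.1 c.2.1 c.2.2}

private theorem fibN_np {p a d m : ℕ} (h : m + d ≤ 2 * a) (N : ℕ → ℕ)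
    (hN : ∀ i < 2 * a, 0 < N i) (hn : ∏ i ∈ range (2 * a), N i = p ^ (2 * a))
    (hm : ∏ i ∈ range m, N i = p ^ m) (hw : ∏ i ∈ range (ww a d m), N i = p ^ (ww a d m)) :
    {b : (ℕ → ℕ → ℕ) × (ℕ → ℕ → ℕ → ℕ) | Good p a d m N b.1 b.2}.Finite ∧
      {b : (ℕ → ℕ → ℕ) × (ℕ → ℕ → ℕ → ℕ) | Good p a d m N b.1 b.2}.ncard ≤
        (p ^ (2 * a)) ^ (2 * a) * p ^ QQ a d m := by
  classical
  set n : ℕ := 2 * a with hn'
  have hwm : ww a d m ≤ m := min_le_left _ _
  have hdn : d ≤ n := by omega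
  have hhd : hh d ≤ d := by
    unfold hh
    omega
  let IE : Finset (Σ _ : ℕ, ℕ) := (range n).sigma fun i => range i
  let IF : Finset (Σ _ : ℕ × ℕ, ℕ) :=
    (prs_np (n - d) n).sigma fun q => range (if n - hh d ≤ q.1 then ww a d m else m)
  obtain ⟨fE, cE⟩ := bnd_np IE fun s => N s.2
  obtain ⟨fF, cF⟩ := bnd_np IF fun s => N s.2
  let Ψ : (ℕ → ℕ → ℕ) × (ℕ → ℕ → ℕ → ℕ) → ((Σ _ : ℕ, ℕ) → ℕ) × ((Σ _ : ℕ × ℕ, ℕ) → ℕ) :=
    fun b => (fun s => b.1 s.1 s.2, fun s => b.2 s.1.1 s.1.2 s.2)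
  have hΨ : Function.Injective Ψ := by
    intro b b' hb
    have h1 := congrArg Prod.fst hb
    have h2 := congrArg Prod.snd hb
    refine Prod.ext ?_ ?_
    · funext i l
      exact congrFun h1 ⟨i, l⟩
    · funext i j l
      exact congrFun h2 ⟨(i, j), l⟩
  have hmaps : ∀ b ∈ {b : (ℕ → ℕ → ℕ) × (ℕ → ℕ → ℕ → ℕ) | Good p a d m N b.1 b.2},
      Ψ b ∈ {f : (Σ _ : ℕ, ℕ) → ℕ | (∀ s ∈ IE, f s < N s.2) ∧ ∀ s, s ∉ IE → f s = 0} ×ˢ
        {f : (Σ _ : ℕ × ℕ, ℕ) → ℕ | (∀ s ∈ IF, f s < N s.2) ∧ ∀ s, s ∉ IF → f s = 0} := by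
    intro b hb
    have hb' : Good p a d m N b.1 b.2 := hb
    refine ⟨⟨?_, ?_⟩, ⟨?_, ?_⟩⟩
    · rintro ⟨i, l⟩ hs
      rw [Finset.mem_sigma, Finset.mem_range, Finset.mem_range] at hs
      exact hb'.E_lt i hs.1 l hs.2
    · rintro ⟨i, l⟩ hs
      apply hb'.E_zero i l
      intro h1
      apply hs
      rw [Finset.mem_sigma, Finset.mem_range, Finset.mem_range]
      exact h1
    · rintro ⟨⟨i, j⟩, l⟩ hs
      rw [Finset.mem_sigma, Finset.mem_range] at hs
      have h1 : l < m := by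
        have h2 := hs.2
        change l < (if n - hh d ≤ i then ww a d m else m) at h2
        split_ifs at h2
        · exact h2.trans_le hwm
        · exact h2
      exact hb'.F_lt i j l h1
    · rintro ⟨⟨i, j⟩, l⟩ hs
      by_contra hne
      apply hs
      obtain ⟨h1, h2, h3, h4, h5⟩ := hb'.F_supp i j l hne
      rw [Finset.mem_sigma, Finset.mem_range]
      refine ⟨?_, ?_⟩
      · change (i, j) ∈ prs_np (n - d) n
        unfold prs_np
        rw [Finset.mem_filter, Finset.mem_product, Finset.mem_range, Finset.mem_range]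
        exact ⟨⟨by omega, h3⟩, h1, h2⟩
      · change l < (if n - hh d ≤ i then ww a d m else m)
        split_ifs with h6
        · exact h5 h6
        · exact h4
  have hfin := fE.prod fF
  refine ⟨Set.Finite.of_injOn hmaps hΨ.injOn hfin, ?_⟩
  refine (Set.ncard_le_ncard_of_injOn Ψ hmaps hΨ.injOn hfin).trans ?_
  rw [Set.ncard_prod]
  refine Nat.mul_le_mul (cE.trans ?_) (cF.trans ?_)
  · rw [Finset.prod_sigma]
    calc ∏ i ∈ range n, ∏ l ∈ range i, N l ≤ ∏ _i ∈ range n, p ^ n := by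
          refine Finset.prod_le_prod' fun i hi => ?_
          rw [← hn]
          refine Finset.prod_le_prod_of_subset_of_one_le' ?_ fun l hl _ => hN l (Finset.mem_range.1 hl)
          exact Finset.range_subset_range.2 (Finset.mem_range.1 hi).le
      _ = (p ^ n) ^ n := by rw [Finset.prod_const, Finset.card_range]
  · rw [Finset.prod_sigma]
    have h1 : ∀ q ∈ prs_np (n - d) n,
        ∏ l ∈ range (if n - hh d ≤ q.1 then ww a d m else m), N l =
          p ^ (if n - hh d ≤ q.1 then ww a d m else m) := by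
      intro q _
      split_ifs
      · exact hw
      · exact hm
    rw [Finset.prod_congr rfl h1, Finset.prod_pow_eq_pow_sum, expo_np hdn hhd]
    exact le_rfl

theorem card_goodSet {p a d m : ℕ} (hp : p.Prime) (h : m + d ≤ 2 * a) :
    (goodSet p a d m).Finite ∧ (goodSet p a d m).ncard ≤
      (p ^ (2 * a) + 1) ^ (2 * a) * (p ^ (2 * a)) ^ (2 * a) * p ^ QQ a d m := by
  classical
  obtain ⟨fA, cA⟩ := bnd_np (range (2 * a)) fun _ => p ^ (2 * a) + 1
  set A : Set (ℕ → ℕ) := {N | (∀ i < 2 * a, 0 < N i) ∧ (∀ i < 2 * a, N i ≤ p ^ (2 * a)) ∧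
    (∀ i, 2 * a ≤ i → N i = 0) ∧ ∏ i ∈ range (2 * a), N i = p ^ (2 * a) ∧
    ∏ i ∈ range m, N i = p ^ m ∧ ∏ i ∈ range (ww a d m), N i = p ^ (ww a d m)} with hA
  have hAsub : A ⊆ {f : ℕ → ℕ | (∀ i ∈ range (2 * a), f i < p ^ (2 * a) + 1) ∧
      ∀ i, i ∉ range (2 * a) → f i = 0} := by
    rintro N ⟨_, h2, h3, _⟩
    refine ⟨fun i hi => Nat.lt_succ_of_le (h2 i (Finset.mem_range.1 hi)), fun i hi => ?_⟩
    rw [Finset.mem_range, not_lt] at hi
    exact h3 i hi
  have hAfin : A.Finite := fA.subset hAsub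
  have hAcard : A.ncard ≤ (p ^ (2 * a) + 1) ^ (2 * a) := by
    refine (Set.ncard_le_ncard hAsub fA).trans (cA.trans ?_)
    rw [Finset.prod_const, Finset.card_range]
  obtain ⟨h1, h2⟩ := fib_np (goodSet p a d m) A hAfin ((p ^ (2 * a)) ^ (2 * a) * p ^ QQ a d m)
    (fun c hc => by
      have hc' : Good p a d m c.1 c.2.1 c.2.2 := hc
      exact ⟨hc'.N_pos, hc'.N_le, hc'.N_zero, hc'.prod_n, hc'.prod_m, hc'.prod_w⟩)
    (fun N hN => fibN_np h N hN.1 hN.2.2.2.1 hN.2.2.2.2.1 hN.2.2.2.2.2)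
  refine ⟨h1, h2.trans ?_⟩
  rw [mul_assoc]
  exact Nat.mul_le_mul_right _ hAcard

end Pool.Agent.Lib_MP_53dcbc_np
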