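import Mathlib

/-!
# Almost all groups of class two and order `p ^ (2 a)` have no partial congruence partition

Definitions (board note 2562).
-/

set_option autoImplicit false

namespace Pool.Agent.Lib_MP_53dcbc_np

/-- Nilpotency class at most two: all commutators are central. -/
def ClassTwo (G : Type) [Group G] : Prop :=
  ∀ x y : G, x * y * x⁻¹ * y⁻¹ ∈ Subgroup.center G

/-- `r` subgroups of order `s` with pairwise trivial intersections. -/
def HasPCP (s r : ℕ) (G : Type) [Group G] : Prop :=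
  ∃ U : Fin r → Subgroup G, (∀ i, Nat.card (U i) = s) ∧ ∀ i j, i ≠ j → U i ⊓ U j = ⊥

/-- Isomorphism of group structures on `Fin N`. -/
def isoSetoid (N : ℕ) : Setoid (Group (Fin N)) where
  r g h := ∃ e : Equiv.Perm (Fin N), ∀ x y, e (g.mul x y) = h.mul (e x) (e y)
  iseqv :=
    { refl := fun _ => ⟨Equiv.refl _, fun _ _ => rfl⟩
      symm := by
        rintro g h ⟨e, he⟩
        refine ⟨e.symm, fun x y => ?_⟩
        rw [Equiv.symm_apply_eq, he, Equiv.apply_symm_apply, Equiv.apply_symm_apply]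
      trans := by
        rintro g h k ⟨e, he⟩ ⟨f, hf⟩
        refine ⟨e.trans f, fun x y => ?_⟩
        rw [Equiv.trans_apply, he, hf]
        rfl }

/-- The isomorphism types of the groups of order `N` with the property `P`. -/
def types (N : ℕ) (P : (G : Type) → [Group G] → Prop) : Set (Quotient (isoSetoid N)) :=
  {c | ∃ g : Group (Fin N), Quotient.mk (isoSetoid N) g = c ∧ @P (Fin N) g}

/-- The number of isomorphism types of groups of order `N` with the property `P`. -/
noncomputable def numTypes (N : ℕ) (P : (G : Type) → [Group G] → Prop) : ℕ := (types N P).ncard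

/-- The subgroup generated by the first `i` members of the sequence. -/
def T {G : Type} [Group G] (x : ℕ → G) (i : ℕ) : Subgroup G := Subgroup.closure (x '' Set.Iio i)

/-- The product `x_{i-1}^{e_{i-1}} ... x_0^{e_0}`. -/
def wd {G : Type} [Group G] (x : ℕ → G) (e : ℕ → ℕ) : ℕ → G
  | 0 => 1
  | i + 1 => x i ^ e i * wd x e i

/-- The sequence `x_0, ..., x_{n-1}` satisfies the relations coded by `N, E, F`. -/
structure Rel {G : Type} [Group G] (n m : ℕ) (N : ℕ → ℕ) (E : ℕ → ℕ → ℕ) (F : ℕ → ℕ → ℕ → ℕ)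
    (x : ℕ → G) : Prop where
  pow : ∀ i < n, x i ^ N i = wd x (E i) i
  comm : ∀ i j, i < j → j < n → x j * x i * (x j)⁻¹ * (x i)⁻¹ = wd x (F i j) m
  central : ∀ i < m, ∀ j < n, x i * x j = x j * x i

/-- `h`, the number of generators in one component. -/
def hh (d : ℕ) : ℕ := (d + 1) / 2

/-- `w`, the logarithm of the order of the group which contains the commutators of a component. -/
def ww (a d m : ℕ) : ℕ := min m (a - hh d)

/-- The exponent of the number of codes. -/
def QQ (a d m : ℕ) : ℕ := m * (d.choose 2 - (hh d).choose 2) + ww a d m * (hh d).choose 2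

/-- Admissible codes. -/
structure Good (p a d m : ℕ) (N : ℕ → ℕ) (E : ℕ → ℕ → ℕ) (F : ℕ → ℕ → ℕ → ℕ) : Prop where
  N_pos : ∀ i < 2 * a, 0 < N i
  N_le : ∀ i < 2 * a, N i ≤ p ^ (2 * a)
  N_zero : ∀ i, 2 * a ≤ i → N i = 0
  prod_n : ∏ i ∈ Finset.range (2 * a), N i = p ^ (2 * a)
  prod_m : ∏ i ∈ Finset.range m, N i = p ^ m
  prod_w : ∏ i ∈ Finset.range (ww a d m), N i = p ^ (ww a d m)
  E_lt : ∀ i < 2 * a, ∀ l < i, E i l < N l
  E_zero : ∀ i l, ¬ (i < 2 * a ∧ l < i) → E i l = 0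
  F_lt : ∀ i j, ∀ l < m, F i j l < N l
  F_supp : ∀ i j l, F i j l ≠ 0 → 2 * a - d ≤ i ∧ i < j ∧ j < 2 * a ∧ l < m ∧
    (2 * a - hh d ≤ i → l < ww a d m)

/-- The set of all codes. -/
def codes (p a : ℕ) : Set ((ℕ × ℕ) × (ℕ → ℕ) × (ℕ → ℕ → ℕ) × (ℕ → ℕ → ℕ → ℕ)) :=
  {c | c.1.2 + c.1.1 ≤ 2 * a ∧ hh c.1.1 ≤ a ∧ Good p a c.1.1 c.1.2 c.2.1 c.2.2.1 c.2.2.2}

end Pool.Agent.Lib_MP_53dcbc_np
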