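import Pool.Agent.Lib_MP_53dcbc_np.Rel

/-!
# [NP-XA] Generators in the components

PROOF. `|A B| = |A| |B| = |G|` (`A ⊓ B = ⊥`), so every element of `G` is `a * b` (e.g. the map
`A × B → G`, `(a, b) ↦ a * b` is injective, hence bijective). Let `K = commutator G` (central,
order `p ^ m`). Let `S` be a finite set (`Finset G`) of minimal cardinality among the finite subsets of
`A ∪ B` with `closure S ⊔ K = ⊤` (all elements of `A ∪ B` have this property), `d = S.card`.
* `closure S = ⊤`: every element of `G` is `s * k`, `s ∈ closure S`, `k ∈ K` central, so every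
  commutator is a commutator of elements of `closure S`; so `K ≤ closure S`.
* (strict chain) for `S₀ ⊆ S`: `Nat.card (closure S₀ ⊔ K) ≥ p ^ S₀.card * p ^ m`, by induction on `S₀`
  (`Finset.induction_on`): if `s ∈ S`, `s ∉ S₀` then `s ∉ closure S₀ ⊔ K` (otherwise `S.erase s` also
  generates `G` modulo `K`, contradiction to the minimality), so `closure S₀ ⊔ K` is a proper subgroup of
  `closure (insert s S₀) ⊔ K`, and a proper subgroup has index `≥ p` (orders are powers of `p`).
  With `S₀ = S`: `p ^ (2 a) ≥ p ^ (d + m)`.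
* One of `S ∩ A`, `S ∩ B` has at least `hh d = (d + 1) / 2` elements; call this component `C`. Let
  `S₀ ⊆ S ∩ C` with `hh d` elements. `closure S₀ ⊔ K ≤ C ⊔ K` and
  `|C ⊔ K| = |C| |K| / |C ⊓ K| = p ^ (a + m) / |C ⊓ K|`; so `|C ⊓ K| * p ^ (hh d) ≤ p ^ a`; so
  `hh d ≤ a` and `|C ⊓ K| ≤ p ^ (a - hh d)`.
* Enumerate `S` as `g 0, ..., g (d - 1)` such that the last `hh d` members are the elements of `S₀`.
-/

set_option autoImplicit false

namespace Pool.Agent.Lib_MP_53dcbc_np

private theorem card_sup_inf {G : Type} [Group G] (C K : Subgroup G) [K.Normal] :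
    Nat.card (C ⊔ K : Subgroup G) * Nat.card (C ⊓ K : Subgroup G) =
      Nat.card C * Nat.card K := by
  have h1 := Subgroup.relIndex_mul_relIndex (⊥ : Subgroup G) K (C ⊔ K) bot_le le_sup_right
  rw [Subgroup.relIndex_bot_left, Subgroup.relIndex_bot_left, Subgroup.relIndex_sup_right] at h1
  have h2 := Subgroup.relIndex_mul_relIndex (⊥ : Subgroup G) (C ⊓ K) C bot_le inf_le_left
  rw [Subgroup.relIndex_bot_left, Subgroup.relIndex_bot_left, Subgroup.inf_relIndex_left] at h2
  rw [← h1, ← h2]
  ring

private theorem card_le_of_lt {G : Type} [Group G] [Finite G] {p n : ℕ} (hp : p.Prime)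
    (hG : Nat.card G = p ^ n) {H H' : Subgroup G} (h : H < H') :
    Nat.card H * p ≤ Nat.card H' := by
  obtain ⟨i, _, hi⟩ := (Nat.dvd_prime_pow hp).1 (hG ▸ Subgroup.card_subgroup_dvd_card H)
  obtain ⟨j, _, hj⟩ := (Nat.dvd_prime_pow hp).1 (hG ▸ Subgroup.card_subgroup_dvd_card H')
  have hlt : Nat.card H < Nat.card H' := by
    by_contra hcon
    push Not at hcon
    exact h.ne (Subgroup.eq_of_le_of_card_ge h.le hcon)
  rw [hi, hj] at hlt
  have hij : i < j := (Nat.pow_lt_pow_iff_right hp.one_lt).1 hlt
  rw [hi, hj, ← pow_succ]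
  exact Nat.pow_le_pow_right hp.pos hij

theorem gens {G : Type} [Group G] [Finite G] {p a : ℕ} (hp : p.Prime)
    (hG : Nat.card G = p ^ (2 * a)) (hc : ClassTwo G) (A B : Subgroup G)
    (hA : Nat.card A = p ^ a) (hB : Nat.card B = p ^ a) (hAB : A ⊓ B = ⊥) :
    ∃ (C : Subgroup G) (d m : ℕ) (g : ℕ → G), Nat.card (commutator G) = p ^ m ∧
      m + d ≤ 2 * a ∧ hh d ≤ a ∧ T g d = ⊤ ∧
      (∀ i, d - hh d ≤ i → i < d → g i ∈ C) ∧
      Nat.card (C ⊓ commutator G : Subgroup G) ≤ p ^ (a - hh d) := by
  classical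
  set K : Subgroup G := commutator G with hK
  obtain ⟨m, _, hm⟩ := (Nat.dvd_prime_pow hp).1 (hG ▸ Subgroup.card_subgroup_dvd_card K)
  have hKc : K ≤ Subgroup.center G := by
    rw [hK, commutator_def, Subgroup.commutator_le]
    intro x _ y _
    exact hc x y
  have hABtop : A ⊔ B = ⊤ := by
    refine (Subgroup.isComplement'_of_card_mul_and_disjoint ?_ (disjoint_iff.2 hAB)).sup_eq_top
    rw [hA, hB, hG, ← pow_add]
    congr 1
    ring
  -- a minimal set of generators modulo `K`
  let P : Finset G → Prop := fun S => (∀ s ∈ S, s ∈ A ∨ s ∈ B) ∧ Subgroup.closure (S : Set G) ⊔ K = ⊤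
  have hex : ∃ n, ∃ S : Finset G, S.card = n ∧ P S := by
    refine ⟨_, (Set.toFinite ((A : Set G) ∪ B)).toFinset, rfl, ?_, ?_⟩
    · intro s hs
      simpa using hs
    · rw [Set.Finite.coe_toFinset, ← Subgroup.sup_eq_closure, hABtop, top_sup_eq]
  obtain ⟨S, hSd, hSP⟩ := Nat.find_spec hex
  have hmin : ∀ S' : Finset G, P S' → S.card ≤ S'.card := by
    intro S' hS'
    rw [hSd]
    exact Nat.find_min' hex ⟨S', rfl, hS'⟩
  set d := S.card with hd
  obtain ⟨hSAB, hStop⟩ := hSP
  -- `S` generates
  have hKS : K ≤ Subgroup.closure (S : Set G) := by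
    rw [hK, commutator_def, Subgroup.commutator_le]
    intro x _ y _
    have hx : x ∈ Subgroup.closure (S : Set G) ⊔ K := by rw [hStop]; trivial
    have hy : y ∈ Subgroup.closure (S : Set G) ⊔ K := by rw [hStop]; trivial
    rw [Subgroup.mem_sup_of_normal_right] at hx hy
    obtain ⟨s, hs, k, hk, rfl⟩ := hx
    obtain ⟨t, ht, l, hl, rfl⟩ := hy
    have hk' := Subgroup.mem_center_iff.1 (hKc hk)
    have hl' := Subgroup.mem_center_iff.1 (hKc hl)
    have e : s * k * (t * l) * (s * k)⁻¹ * (t * l)⁻¹ = s * t * s⁻¹ * t⁻¹ := by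
      have e1 : s * k * (t * l) = s * t * (k * l) := by
        rw [mul_assoc s k, ← mul_assoc k t, ← hk' t]
        simp only [mul_assoc]
      have e3 : t * l * (s * k) = t * s * (k * l) := by
        rw [mul_assoc t l, ← mul_assoc l s, ← hl' s, mul_assoc s l k, ← hk' l]
        simp only [mul_assoc]
      rw [mul_assoc (s * k * (t * l)), ← mul_inv_rev, e1, e3]
      group
    change s * k * (t * l) * (s * k)⁻¹ * (t * l)⁻¹ ∈ _
    rw [e]
    exact mul_mem (mul_mem (mul_mem hs ht) (inv_mem hs)) (inv_mem ht)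
  have hSgen : Subgroup.closure (S : Set G) = ⊤ := by
    rw [← hStop]
    exact (sup_eq_left.2 hKS).symm
  -- the strict chain
  have hchain : ∀ S₀ : Finset G, S₀ ⊆ S →
      p ^ S₀.card * p ^ m ≤ Nat.card (Subgroup.closure (S₀ : Set G) ⊔ K : Subgroup G) := by
    intro S₀
    induction S₀ using Finset.induction_on with
    | empty =>
      intro _
      simp only [Finset.card_empty, pow_zero, one_mul, Finset.coe_empty, Subgroup.closure_empty,
        bot_sup_eq]
      exact hm.ge
    | insert s S₀ hs ih =>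
      intro hsub
      have hsS : s ∈ S := hsub (Finset.mem_insert_self s S₀)
      have hS₀ : S₀ ⊆ S := fun x hx => hsub (Finset.mem_insert_of_mem hx)
      have hnot : s ∉ Subgroup.closure (S₀ : Set G) ⊔ K := by
        intro hmem
        have hP : P (S.erase s) := by
          refine ⟨fun x hx => hSAB x (Finset.mem_of_mem_erase hx), ?_⟩
          have h1 : Subgroup.closure (S₀ : Set G) ≤ Subgroup.closure ((S.erase s : Finset G) : Set G) := by
            apply Subgroup.closure_mono
            intro x hx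
            have hx' : x ∈ S₀ := hx
            have hxs : x ≠ s := by rintro rfl; exact hs hx'
            exact Finset.mem_coe.2 (Finset.mem_erase.2 ⟨hxs, hS₀ hx'⟩)
          have h2 : s ∈ Subgroup.closure ((S.erase s : Finset G) : Set G) ⊔ K :=
            (sup_le_sup_right h1 K) hmem
          rw [eq_top_iff, ← hStop]
          refine sup_le ?_ le_sup_right
          rw [Subgroup.closure_le]
          intro x hx
          by_cases hxs : x = s
          · rw [hxs]; exact h2
          · exact (le_sup_left : Subgroup.closure ((S.erase s : Finset G) : Set G) ≤ _)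
              (Subgroup.subset_closure (Finset.mem_coe.2 (Finset.mem_erase.2 ⟨hxs, hx⟩)))
        have h3 := hmin _ hP
        have h4 := Finset.card_erase_lt_of_mem hsS
        omega
      have hle : Subgroup.closure (S₀ : Set G) ⊔ K ≤
          Subgroup.closure ((insert s S₀ : Finset G) : Set G) ⊔ K := by
        apply sup_le_sup_right
        apply Subgroup.closure_mono
        intro x hx
        exact Finset.mem_coe.2 (Finset.mem_insert_of_mem hx)
      have hlt : Subgroup.closure (S₀ : Set G) ⊔ K <
          Subgroup.closure ((insert s S₀ : Finset G) : Set G) ⊔ K := by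
        refine lt_of_le_of_ne hle ?_
        intro heq
        apply hnot
        rw [heq]
        exact (le_sup_left : Subgroup.closure ((insert s S₀ : Finset G) : Set G) ≤ _)
          (Subgroup.subset_closure (Finset.mem_coe.2 (Finset.mem_insert_self s S₀)))
      rw [Finset.card_insert_of_notMem hs]
      calc p ^ (S₀.card + 1) * p ^ m = (p ^ S₀.card * p ^ m) * p := by ring
        _ ≤ Nat.card (Subgroup.closure (S₀ : Set G) ⊔ K : Subgroup G) * p :=
            Nat.mul_le_mul_right p (ih hS₀)
        _ ≤ _ := card_le_of_lt hp hG hlt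
  have hdm : m + d ≤ 2 * a := by
    have h1 := hchain S (Finset.Subset.refl S)
    rw [hStop, Subgroup.card_top, hG, ← pow_add] at h1
    have h2 := (Nat.pow_le_pow_iff_right hp.one_lt).1 h1
    omega
  -- the component
  have hcomp : ∀ C : Subgroup G, Nat.card C = p ^ a →
      hh d ≤ (S.filter (fun x => x ∈ C)).card →
      ∃ (C : Subgroup G) (d m : ℕ) (g : ℕ → G), Nat.card K = p ^ m ∧
      m + d ≤ 2 * a ∧ hh d ≤ a ∧ T g d = ⊤ ∧
      (∀ i, d - hh d ≤ i → i < d → g i ∈ C) ∧
      Nat.card (C ⊓ K : Subgroup G) ≤ p ^ (a - hh d) := by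
    intro C hC hcard
    obtain ⟨S₀, hS₀sub, hS₀card⟩ := Finset.exists_subset_card_eq hcard
    have hS₀S : S₀ ⊆ S := hS₀sub.trans (Finset.filter_subset _ _)
    have hS₀C : ∀ x ∈ S₀, x ∈ C := fun x hx => (Finset.mem_filter.1 (hS₀sub hx)).2
    have h1 := hchain S₀ hS₀S
    rw [hS₀card] at h1
    have h2 : Nat.card (Subgroup.closure (S₀ : Set G) ⊔ K : Subgroup G) ≤
        Nat.card (C ⊔ K : Subgroup G) := by
      apply Subgroup.card_le_of_le
      apply sup_le_sup_right
      rw [Subgroup.closure_le]
      exact fun x hx => hS₀C x hx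
    have h3 := card_sup_inf C K
    rw [hC, hm] at h3
    have h4 : p ^ hh d * p ^ m * Nat.card (C ⊓ K : Subgroup G) ≤ p ^ a * p ^ m := by
      rw [← h3]
      exact Nat.mul_le_mul_right _ (h1.trans h2)
    have h5 : Nat.card (C ⊓ K : Subgroup G) * p ^ hh d ≤ p ^ a := by
      have hpm : 0 < p ^ m := pow_pos hp.pos m
      refine Nat.le_of_mul_le_mul_right ?_ hpm
      calc Nat.card (C ⊓ K : Subgroup G) * p ^ hh d * p ^ m =
          p ^ hh d * p ^ m * Nat.card (C ⊓ K : Subgroup G) := by ring
        _ ≤ _ := h4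
    have hpos : 0 < Nat.card (C ⊓ K : Subgroup G) := Nat.card_pos
    have h6 : hh d ≤ a := by
      have h7 : p ^ hh d ≤ p ^ a := le_trans (Nat.le_mul_of_pos_left _ hpos) h5
      exact (Nat.pow_le_pow_iff_right hp.one_lt).1 h7
    have h8 : Nat.card (C ⊓ K : Subgroup G) ≤ p ^ (a - hh d) := by
      have hph : 0 < p ^ hh d := pow_pos hp.pos _
      refine Nat.le_of_mul_le_mul_right ?_ hph
      rw [← pow_add, Nat.sub_add_cancel h6]
      exact h5
    -- enumeration
    set l₁ := (S \ S₀).toList with hl₁
    set l₂ := S₀.toList with hl₂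
    have hlen₂ : l₂.length = hh d := by rw [hl₂, Finset.length_toList, hS₀card]
    have hhd : hh d ≤ d := by unfold hh; omega
    have hlen₁ : l₁.length = d - hh d := by
      rw [hl₁, Finset.length_toList, Finset.card_sdiff_of_subset hS₀S, hS₀card]
    have hlen : (l₁ ++ l₂).length = d := by
      rw [List.length_append, hlen₁, hlen₂]; omega
    refine ⟨C, d, m, fun i => (l₁ ++ l₂).getD i 1, hm, hdm, h6, ?_, ?_, h8⟩
    · unfold T
      have himg : (fun i => (l₁ ++ l₂).getD i 1) '' Set.Iio d = (S : Set G) := by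
        ext x
        constructor
        · rintro ⟨i, hi, rfl⟩
          have hi' : i < (l₁ ++ l₂).length := by rw [hlen]; exact hi
          have h9 : (l₁ ++ l₂).getD i 1 ∈ l₁ ++ l₂ := by
            rw [List.getD_eq_getElem _ _ hi']
            exact List.getElem_mem hi'
          rw [List.mem_append, hl₁, hl₂, Finset.mem_toList, Finset.mem_toList] at h9
          rcases h9 with h9 | h9
          · exact (Finset.mem_sdiff.1 h9).1
          · exact hS₀S h9
        · intro hx
          have h9 : x ∈ l₁ ++ l₂ := by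
            rw [List.mem_append, hl₁, hl₂, Finset.mem_toList, Finset.mem_toList, Finset.mem_sdiff]
            by_cases hx0 : x ∈ S₀
            · exact Or.inr hx0
            · exact Or.inl ⟨hx, hx0⟩
          obtain ⟨i, hi, rfl⟩ := List.getElem_of_mem h9
          refine ⟨i, ?_, ?_⟩
          · rw [Set.mem_Iio, ← hlen]; exact hi
          · exact List.getD_eq_getElem _ _ hi
      rw [himg]
      exact hSgen
    · intro i hi hid
      have hi1 : l₁.length ≤ i := by rw [hlen₁]; exact hi
      have hi2 : i - l₁.length < l₂.length := by rw [hlen₁, hlen₂]; omega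
      change (l₁ ++ l₂).getD i 1 ∈ C
      rw [List.getD_append_right _ _ _ _ hi1, List.getD_eq_getElem _ _ hi2]
      apply hS₀C
      have h9 := List.getElem_mem hi2
      exact Finset.mem_toList.1 h9
  have hsum : d ≤ (S.filter (fun x => x ∈ A)).card + (S.filter (fun x => x ∈ B)).card := by
    rw [hd]
    refine le_trans (Finset.card_le_card ?_) (Finset.card_union_le _ _)
    intro x hx
    rw [Finset.mem_union, Finset.mem_filter, Finset.mem_filter]
    rcases hSAB x hx with h | h
    · exact Or.inl ⟨hx, h⟩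
    · exact Or.inr ⟨hx, h⟩
  by_cases hcase : hh d ≤ (S.filter (fun x => x ∈ A)).card
  · exact hcomp A hA hcase
  · refine hcomp B hB ?_
    unfold hh at hcase ⊢
    omega

end Pool.Agent.Lib_MP_53dcbc_np
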