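import Pool.Agent.Lib_MP_53dcbc_np.Rel

/-!
# [NP-XB] Chains of subgroups

PROOF. `chain_step`: between subgroups `H ≤ K` of orders `p ^ i`, `p ^ j`, `i < j`, there is a subgroup of
order `p ^ (i + 1)` (apply `Sylow.exists_subgroup_card_pow_prime_le` or the like inside the group `K`, to
`H.subgroupOf K`; map back with `Subgroup.map K.subtype`).
`seq_chain`: Let `H 0 ≤ H 1 ≤ ... ≤ H m` be subgroups with orders `p ^ i`. Choose
`z i ∈ H (i + 1)`, `z i ∉ H i`. Then `T z i = H i` for all `i ≤ m`, by induction (`T_succ`):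
`H i < T z (i + 1) ≤ H (i + 1)` and the index of `H i` in `H (i + 1)` is the prime `p`.
`chain`: choose `H i` for `i ≤ w` with `W₀ ≤ H w`, then up to `H m = K`: first `W₁` with
`W₀ ≤ W₁ ≤ K`, `|W₁| = p ^ w` (iterate `chain_step`, the order of `W₀` is a power of `p`), then
a chain from `⊥` to `W₁` and a chain from `W₁` to `K`.
-/

set_option autoImplicit false

namespace Pool.Agent.Lib_MP_53dcbc_np

private theorem lift_le {G : Type} [Group G] [Finite G] {p : ℕ} (hp : p.Prime)
    (K H : Subgroup G) {m n k : ℕ} (hK : Nat.card K = p ^ m) (hHK : H ≤ K)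
    (hH : Nat.card H = p ^ n) (hnk : n ≤ k) (hkm : k ≤ m) :
    ∃ L : Subgroup G, Nat.card L = p ^ k ∧ H ≤ L ∧ L ≤ K := by
  have : Fact p.Prime := ⟨hp⟩
  have h1 : Nat.card (H.subgroupOf K) = p ^ n := by
    rw [← hH]
    exact Nat.card_congr (Subgroup.subgroupOfEquivOfLe hHK).toEquiv
  have h0 : p ^ k ∣ Nat.card K := by
    rw [hK]
    exact pow_dvd_pow p hkm
  obtain ⟨L, hL1, hL2⟩ := Sylow.exists_subgroup_card_pow_prime_le p (n := n) (m := k) h0
    (H.subgroupOf K) h1 hnk
  refine ⟨L.map K.subtype, ?_, ?_, Subgroup.map_subtype_le L⟩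
  · rw [← hL1]
    exact Nat.card_congr (L.equivMapOfInjective _ K.subtype_injective).symm.toEquiv
  · intro x hx
    exact ⟨⟨x, hHK hx⟩, hL2 (Subgroup.mem_subgroupOf.2 hx), rfl⟩

private theorem T_congr_xb {G : Type} [Group G] (z z' : ℕ → G) (i : ℕ)
    (h : ∀ l < i, z l = z' l) : T z i = T z' i := by
  unfold T
  congr 1
  exact Set.image_congr fun l hl => h l hl

private theorem T_zero_xb {G : Type} [Group G] (x : ℕ → G) : T x 0 = ⊥ := by
  unfold T
  have h : Set.Iio 0 = (∅ : Set ℕ) := by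
    ext i
    simp
  rw [h, Set.image_empty, Subgroup.closure_empty]

private theorem extend_xb {G : Type} [Group G] [Finite G] {p : ℕ} (hp : p.Prime) (n : ℕ) :
    ∀ (i : ℕ) (z : ℕ → G) (K : Subgroup G), Nat.card K = p ^ (i + n) → T z i ≤ K →
      (∀ j ≤ i, Nat.card (T z j) = p ^ j) →
      ∃ z' : ℕ → G, (∀ j ≤ i + n, Nat.card (T z' j) = p ^ j) ∧ T z' (i + n) = K ∧
        ∀ j ≤ i, T z' j = T z j := by
  induction n with
  | zero =>
    intro i z K hK hle hj
    refine ⟨z, fun j hj' => hj j (by omega), ?_, fun _ _ => rfl⟩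
    refine Subgroup.eq_of_le_of_card_ge hle ?_
    rw [hK, add_zero, hj i le_rfl]
  | succ n ih =>
    intro i z K hK hle hj
    obtain ⟨L, hL1, hL2, hL3⟩ := lift_le hp K (T z i) (k := i + 1) hK hle (hj i le_rfl)
      (Nat.le_succ i) (by omega)
    have hlt : p ^ i < p ^ (i + 1) := Nat.pow_lt_pow_right hp.one_lt (Nat.lt_succ_self i)
    have hex : ∃ x ∈ L, x ∉ T z i := by
      by_contra hcon
      push Not at hcon
      have h1 : L ≤ T z i := fun x hx => hcon x hx
      have h2 := Subgroup.card_le_of_le h1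
      rw [hL1, hj i le_rfl] at h2
      omega
    obtain ⟨x, hxL, hxT⟩ := hex
    have hz : ∀ j ≤ i, T (Function.update z i x) j = T z j := by
      intro j hj'
      refine T_congr_xb _ _ _ fun l hl => ?_
      rw [Function.update_of_ne (by omega)]
    have hle' : T (Function.update z i x) (i + 1) ≤ L := by
      unfold T
      rw [Subgroup.closure_le]
      rintro _ ⟨l, hl, rfl⟩
      rcases Nat.lt_succ_iff_lt_or_eq.1 (Set.mem_Iio.1 hl) with h | h
      · rw [Function.update_of_ne (by omega)]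
        exact hL2 (Subgroup.subset_closure ⟨l, h, rfl⟩)
      · rw [h, Function.update_self]
        exact hxL
    have hge : T z i ≤ T (Function.update z i x) (i + 1) := by
      rw [← hz i le_rfl]
      exact Subgroup.closure_mono (Set.image_mono (Set.Iio_subset_Iio (Nat.le_succ i)))
    have hxm : x ∈ T (Function.update z i x) (i + 1) :=
      Subgroup.subset_closure ⟨i, Nat.lt_succ_self i, Function.update_self i x z⟩
    have hcard : Nat.card (T (Function.update z i x) (i + 1)) = p ^ (i + 1) := by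
      have hdvd : Nat.card (T (Function.update z i x) (i + 1)) ∣ p ^ (i + 1) := by
        rw [← hL1]
        exact Subgroup.card_dvd_of_le hle'
      obtain ⟨k, hk, hk2⟩ := (Nat.dvd_prime_pow hp).1 hdvd
      have h3 : p ^ i < p ^ k := by
        rw [← hk2, ← hj i le_rfl]
        have h4 : T z i < T (Function.update z i x) (i + 1) :=
          lt_of_le_of_ne hge fun h => hxT (by rw [h]; exact hxm)
        exact lt_of_le_of_ne (Subgroup.card_le_of_le hge) fun h =>
          h4.ne (Subgroup.eq_of_le_of_card_ge hge h.ge)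
      have h5 : i < k := (Nat.pow_lt_pow_iff_right hp.one_lt).1 h3
      have h6 : k = i + 1 := by omega
      rw [hk2, h6]
    have hj2 : ∀ j ≤ i + 1, Nat.card (T (Function.update z i x) j) = p ^ j := by
      intro j hj'
      rcases Nat.le_succ_iff.1 hj' with h | h
      · rw [hz j h]
        exact hj j h
      · rw [h]
        exact hcard
    obtain ⟨z', h1, h2, h3⟩ := ih (i + 1) (Function.update z i x) K
      (by rw [hK]; congr 1; omega) (hle'.trans hL3) hj2
    have h4 : i + 1 + n = i + (n + 1) := by omega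
    rw [h4] at h1 h2
    exact ⟨z', h1, h2, fun j hj' => (h3 j (by omega)).trans (hz j hj')⟩

theorem chain {G : Type} [Group G] [Finite G] {p : ℕ} (hp : p.Prime) (K W₀ : Subgroup G)
    {m w : ℕ} (hK : Nat.card K = p ^ m) (hW : W₀ ≤ K) (hwm : w ≤ m)
    (hw : Nat.card W₀ ≤ p ^ w) :
    ∃ z : ℕ → G, (∀ i ≤ m, Nat.card (T z i) = p ^ i) ∧ T z m = K ∧ W₀ ≤ T z w := by
  have hdvd : Nat.card W₀ ∣ p ^ m := by
    rw [← hK]
    exact Subgroup.card_dvd_of_le hW
  obtain ⟨k, _, hk2⟩ := (Nat.dvd_prime_pow hp).1 hdvd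
  have hkw : k ≤ w := by
    rw [hk2] at hw
    exact (Nat.pow_le_pow_iff_right hp.one_lt).1 hw
  obtain ⟨W₁, hW1, hW2, hW3⟩ := lift_le hp K W₀ hK hW hk2 hkw hwm
  obtain ⟨z₁, a1, a2, _⟩ := extend_xb hp w 0 (fun _ => (1 : G)) W₁ (by rw [hW1, zero_add])
    (by rw [T_zero_xb]; exact bot_le)
    (by
      intro j hj
      rw [Nat.le_zero.1 hj, T_zero_xb, Subgroup.card_bot, pow_zero])
  rw [zero_add] at a1 a2
  obtain ⟨z₂, b1, b2, b3⟩ := extend_xb hp (m - w) w z₁ K
    (by rw [hK]; congr 1; omega) (by rw [a2]; exact hW3) a1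
  have h4 : w + (m - w) = m := by omega
  rw [h4] at b1 b2
  exact ⟨z₂, b1, b2, by rw [b3 w le_rfl, a2]; exact hW2⟩

end Pool.Agent.Lib_MP_53dcbc_np
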