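import Pool.Agent.Lib_MP_53dcbc_np.Rel

/-!
# [NP-O] The relative orders

PROOF. `orders`: `N i = Nat.card (T x (i + 1)) / Nat.card (T x i)`, the index of the normal subgroup `T x i` in
`T x (i + 1)`, or the least positive `k` with `x i ^ k ∈ T x i` (then use that the elements
`x i ^ k * t`, `k < N i`, `t ∈ T x i` of `T x (i + 1)` are different, and `nf`/`card_T_le`).
-/

set_option autoImplicit false

namespace Pool.Agent.Lib_MP_53dcbc_np

open Finset

theorem orders {G : Type} [Group G] [Finite G] (x : ℕ → G) (hn : ∀ i, (T x i).Normal) :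
    ∃ N : ℕ → ℕ, (∀ i, 0 < N i) ∧ (∀ i, x i ^ N i ∈ T x i) ∧
      ∀ i, Nat.card (T x i) = ∏ l ∈ range i, N l := by
  refine ⟨fun i => (T x i).relIndex (T x (i + 1)), fun i => ?_, fun i => ?_, fun i => ?_⟩
  · exact Nat.pos_of_ne_zero Subgroup.FiniteIndex.index_ne_zero
  · have := hn i
    have h1 : (T x i).relIndex (T x (i + 1)) =
        Nat.card ((T x (i + 1)).map (QuotientGroup.mk' (T x i))) := by
      rw [← Subgroup.relIndex_ker, QuotientGroup.ker_mk']
    have h2 : QuotientGroup.mk' (T x i) (x i) ∈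
        (T x (i + 1)).map (QuotientGroup.mk' (T x i)) :=
      Subgroup.mem_map_of_mem _ (mem_T x (Nat.lt_succ_self i))
    have h3 : (⟨_, h2⟩ : (T x (i + 1)).map (QuotientGroup.mk' (T x i))) ^
        (T x i).relIndex (T x (i + 1)) = 1 := by
      rw [h1]
      exact pow_card_eq_one'
    have h4 := congrArg Subtype.val h3
    change (QuotientGroup.mk' (T x i) (x i)) ^ (T x i).relIndex (T x (i + 1)) = 1 at h4
    rw [← map_pow, ← MonoidHom.mem_ker, QuotientGroup.ker_mk'] at h4
    exact h4
  · induction i with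
    | zero => rw [T_zero, range_zero, prod_empty, Subgroup.card_bot]
    | succ i ih =>
      rw [prod_range_succ, ← ih, ← Subgroup.relIndex_bot_left, ← Subgroup.relIndex_bot_left,
        Subgroup.relIndex_mul_relIndex _ _ _ bot_le (T_mono x (Nat.le_succ i))]

end Pool.Agent.Lib_MP_53dcbc_np
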