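import Pool.Agent.Lib_MP_53dcbc_np.ExistA
import Pool.Agent.Lib_MP_53dcbc_np.ExistB
import Pool.Agent.Lib_MP_53dcbc_np.Ord

/-!
# [NP-XC] Every group with two components has a code

PROOF. `n = 2 a`, `A`, `B` the two components, `K = commutator G`, `gens` gives `C, d, m, g`. Let
`w = ww a d m = min m (a - hh d)`. `Nat.card (C ⊓ K) ≤ p ^ w` (it is at most `p ^ (a - hh d)` and at most
`|K| = p ^ m`). `chain` (with `W₀ = C ⊓ K`) gives `z`. Define
`x i = if i < m then z i else if 2 a - d ≤ i then g (i - (2 a - d)) else 1` (`m ≤ 2 a - d`). Then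
`T x i = T z i` for `i ≤ m`, `T x i = K` for `m ≤ i ≤ 2 a - d`, `T x (2 a) = ⊤` (it contains all `g i`, `i < d`),
`x i ∈ center G` for `i < 2 a - d` (`z i ∈ K` is central by `ClassTwo`), and all commutators of `G` lie in
`T x m = K`. So all `T x i` are normal (`normal_T`). `orders` gives `N`.
`E i`: the exponents (`nf`) of `x i ^ N i ∈ T x i`, and `0` for `2 a ≤ i`. `F i j` (`2 a - d ≤ i < j < 2 a`):
the exponents of the commutator `x j * x i * (x j)⁻¹ * (x i)⁻¹`, which lies in `K = T x m`, and in `T x w` if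
`2 a - hh d ≤ i` (then `x i`, `x j` are in `C`, and `C ⊓ K ≤ T x w`); take the exponents with respect to
`T x w` in this case (`wd_extend`). `F i j = 0` for the other pairs (for `i < 2 a - d` the element `x i` is
central and the commutator is `1 = wd x 0 m`).
-/

set_option autoImplicit false

namespace Pool.Agent.Lib_MP_53dcbc_np

open Finset

private theorem ec_T_congr {G : Type} [Group G] {x y : ℕ → G} {i : ℕ} (h : ∀ l < i, x l = y l) :
    T x i = T y i := by
  unfold T
  congr 1
  ext g
  constructor
  · rintro ⟨l, hl, rfl⟩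
    exact ⟨l, hl, (h l hl).symm⟩
  · rintro ⟨l, hl, rfl⟩
    exact ⟨l, hl, h l hl⟩

private theorem ec_comm_mem {G : Type} [Group G] (y z : G) :
    y * z * y⁻¹ * z⁻¹ ∈ commutator G := by
  rw [← commutatorElement_def, commutator_def]
  exact Subgroup.commutator_mem_commutator (Subgroup.mem_top _) (Subgroup.mem_top _)

private theorem ec_comm_le {G : Type} [Group G] (hc : ClassTwo G) :
    commutator G ≤ Subgroup.center G := by
  rw [commutator_def, Subgroup.commutator_le]
  intro y _ z _
  rw [commutatorElement_def]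
  exact hc y z

private theorem ec_wd_zero {G : Type} [Group G] (x : ℕ → G) (i : ℕ) :
    wd x (fun _ => 0) i = 1 := by
  rw [wd_extend x (fun _ => 0) (Nat.zero_le i) fun _ _ _ => rfl]
  rfl

private theorem ec_central_comm {G : Type} [Group G] {y z : G} (hz : z ∈ Subgroup.center G) :
    y * z * y⁻¹ * z⁻¹ = 1 := by
  rw [Subgroup.mem_center_iff.mp hz y]
  group

theorem exists_code {G : Type} [Group G] [Finite G] {p a : ℕ} (hp : p.Prime)
    (hG : Nat.card G = p ^ (2 * a)) (hc : ClassTwo G) (hP : HasPCP (p ^ a) 2 G) :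
    ∃ c ∈ codes p a, ∃ x : ℕ → G, T x (2 * a) = ⊤ ∧
      Rel (2 * a) c.1.2 c.2.1 c.2.2.1 c.2.2.2 x := by
  classical
  obtain ⟨U, hU1, hU2⟩ := hP
  obtain ⟨C, d, m, g, hK, hmd, hha, hTg, hgC, hCK⟩ :=
    gens hp hG hc (U 0) (U 1) (hU1 0) (hU1 1) (hU2 0 1 (by decide))
  have hwm : ww a d m ≤ m := min_le_left _ _
  have hw : Nat.card (C ⊓ commutator G : Subgroup G) ≤ p ^ ww a d m := by
    rcases le_total m (a - hh d) with h | h
    · have : ww a d m = m := min_eq_left h
      rw [this, ← hK]
      exact Subgroup.card_le_of_le inf_le_right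
    · have : ww a d m = a - hh d := min_eq_right h
      rw [this]
      exact hCK
  obtain ⟨z, hz1, hz2, hz3⟩ := chain hp (commutator G) (C ⊓ commutator G) hK inf_le_right hwm hw
  let x : ℕ → G := fun i =>
    if i < m then z i else if 2 * a - d ≤ i then g (i - (2 * a - d)) else 1
  have hxz : ∀ i, i < m → x i = z i := fun i hi => if_pos hi
  have hxg : ∀ i, 2 * a - d ≤ i → x i = g (i - (2 * a - d)) := by
    intro i hi
    change (if i < m then z i else if 2 * a - d ≤ i then g (i - (2 * a - d)) else 1) = _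
    rw [if_neg (by omega), if_pos hi]
  have hTxz : ∀ i ≤ m, T x i = T z i := fun i hi =>
    ec_T_congr fun l hl => hxz l (lt_of_lt_of_le hl hi)
  have hTm : T x m = commutator G := by rw [hTxz m le_rfl, hz2]
  have hTtop : T x (2 * a) = ⊤ := by
    rw [eq_top_iff, ← hTg]
    unfold T
    rw [Subgroup.closure_le]
    rintro y ⟨l, hl, rfl⟩
    have hl' : l < d := hl
    have h1 : x (2 * a - d + l) = g l := by
      rw [hxg _ (by omega)]
      congr 1
      omega
    rw [← h1]
    exact Subgroup.subset_closure ⟨2 * a - d + l, by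
      change 2 * a - d + l < 2 * a
      omega, rfl⟩
  have hcenT : ∀ i < 2 * a - d, x i ∈ Subgroup.center G := by
    intro i hi
    by_cases him : i < m
    · apply ec_comm_le hc
      rw [← hTm]
      exact mem_T x him
    · have : x i = 1 := by
        change (if i < m then z i else if 2 * a - d ≤ i then g (i - (2 * a - d)) else 1) = _
        rw [if_neg him, if_neg (by omega)]
      rw [this]
      exact Subgroup.one_mem _
  have hcen : ∀ i < m, x i ∈ Subgroup.center G := fun i hi => hcenT i (by omega)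
  have hcom : ∀ y z : G, y * z * y⁻¹ * z⁻¹ ∈ T x m := by
    intro y z
    rw [hTm]
    exact ec_comm_mem y z
  have hnorm : ∀ i, (T x i).Normal := fun i => normal_T x m hcen hcom i
  obtain ⟨N, hN0, hNp, hNc⟩ := orders x hnorm
  have hnf := nf x N (2 * a) (fun i _ => hnorm i) (fun i _ => hN0 i) (fun i _ => hNp i)
  have hE : ∀ i, ∃ e : ℕ → ℕ, i < 2 * a → (∀ l < i, e l < N l) ∧ (∀ l, i ≤ l → e l = 0) ∧
      wd x e i = x i ^ N i := by
    intro i
    by_cases hi : i < 2 * a
    · obtain ⟨e, he⟩ := hnf i hi.le _ (hNp i)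
      exact ⟨e, fun _ => he⟩
    · exact ⟨fun _ => 0, fun h => absurd h hi⟩
  choose E hE using hE
  have hF : ∀ i j, ∃ e : ℕ → ℕ, (∀ l < m, e l < N l) ∧
      (∀ l, e l ≠ 0 → 2 * a - d ≤ i ∧ i < j ∧ j < 2 * a ∧ l < m ∧
        (2 * a - hh d ≤ i → l < ww a d m)) ∧
      (i < j → j < 2 * a → x j * x i * (x j)⁻¹ * (x i)⁻¹ = wd x e m) := by
    intro i j
    by_cases hij : 2 * a - d ≤ i ∧ i < j ∧ j < 2 * a
    · obtain ⟨h1, h2, h3⟩ := hij
      by_cases hi : 2 * a - hh d ≤ i
      · have hhd : hh d ≤ d := by
          unfold hh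
          omega
        have hiC : x i ∈ C := by
          rw [hxg i h1]
          exact hgC _ (by omega) (by omega)
        have hjC : x j ∈ C := by
          rw [hxg j (by omega)]
          exact hgC _ (by omega) (by omega)
        have h4 : x j * x i * (x j)⁻¹ * (x i)⁻¹ ∈ T x (ww a d m) := by
          rw [hTxz _ hwm]
          exact hz3 ⟨C.mul_mem (C.mul_mem (C.mul_mem hjC hiC) (C.inv_mem hjC)) (C.inv_mem hiC),
            ec_comm_mem _ _⟩
        obtain ⟨e, he1, he2, he3⟩ := hnf (ww a d m) (by omega) _ h4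
        refine ⟨e, fun l hl => ?_, fun l hl => ?_, fun _ _ => ?_⟩
        · by_cases hlw : l < ww a d m
          · exact he1 l hlw
          · rw [he2 l (by omega)]
            exact hN0 l
        · have hlw : l < ww a d m := by
            by_contra hlw
            exact hl (he2 l (by omega))
          exact ⟨h1, h2, h3, by omega, fun _ => hlw⟩
        · rw [wd_extend x e hwm fun l hl _ => he2 l hl, he3]
      · obtain ⟨e, he1, he2, he3⟩ := hnf m (by omega) _ (hcom (x j) (x i))
        refine ⟨e, he1, fun l hl => ?_, fun _ _ => he3.symm⟩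
        have hlm : l < m := by
          by_contra hlm
          exact hl (he2 l (by omega))
        exact ⟨h1, h2, h3, hlm, fun h => absurd h hi⟩
    · refine ⟨fun _ => 0, fun l _ => hN0 l, fun l hl => absurd rfl hl, fun h2 h3 => ?_⟩
      rw [ec_wd_zero]
      exact ec_central_comm (hcenT i (by
        by_contra h1
        exact hij ⟨by omega, h2, h3⟩))
  choose F hF using hF
  let N' : ℕ → ℕ := fun i => if i < 2 * a then N i else 0
  have hN' : ∀ i, i < 2 * a → N' i = N i := fun i hi => if_pos hi
  let E' : ℕ → ℕ → ℕ := fun i => if i < 2 * a then E i else fun _ => 0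
  have hE' : ∀ i, i < 2 * a → E' i = E i := fun i hi => if_pos hi
  have hprod : ∀ k ≤ 2 * a, ∏ i ∈ range k, N' i = Nat.card (T x k) := by
    intro k hk
    rw [hNc]
    exact prod_congr rfl fun i hi => hN' i (by
      rw [mem_range] at hi
      omega)
  refine ⟨((d, m), N', E', F), ⟨hmd, hha, ?_⟩, x, hTtop, ?_⟩
  · refine ⟨fun i hi => ?_, fun i hi => ?_, fun i hi => ?_, ?_, ?_, ?_, fun i hi l hl => ?_,
      fun i l hil => ?_, fun i j l hl => ?_, fun i j l hl => (hF i j).2.1 l hl⟩
    · change 0 < N' i
      rw [hN' i hi]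
      exact hN0 i
    · change N' i ≤ _
      rw [hN' i hi, ← hG]
      have h1 : N i ∣ ∏ l ∈ range (i + 1), N l := dvd_prod_of_mem _ (by
        rw [mem_range]
        omega)
      rw [← hNc] at h1
      exact (Nat.le_of_dvd Nat.card_pos h1).trans (Subgroup.card_le_card_group _)
    · change (if i < 2 * a then N i else 0) = 0
      rw [if_neg (by
        have : 2 * a ≤ i := hi
        omega)]
    · change ∏ i ∈ range (2 * a), N' i = _
      rw [hprod _ le_rfl, hTtop, Subgroup.card_top, hG]
    · change ∏ i ∈ range m, N' i = _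
      rw [hprod _ (by omega), hTm, hK]
    · change ∏ i ∈ range (ww a d m), N' i = _
      rw [hprod _ (by omega), hTxz _ hwm, hz1 _ hwm]
    · change E' i l < N' l
      rw [hE' i hi, hN' l (by omega)]
      exact (hE i hi).1 l hl
    · change (if i < 2 * a then E i else fun _ => 0) l = 0
      by_cases hi : i < 2 * a
      · rw [if_pos hi]
        exact (hE i hi).2.1 l (by
          by_contra h
          exact hil ⟨hi, by omega⟩)
      · rw [if_neg hi]
    · have hl' : l < m := hl
      change F i j l < N' l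
      rw [hN' l (by omega)]
      exact (hF i j).1 l hl'
  · refine ⟨fun i hi => ?_, fun i j hij hj => (hF i j).2.2 hij hj, fun i hi j _ => ?_⟩
    · change x i ^ N' i = wd x (E' i) i
      rw [hE' i hi, hN' i hi]
      exact (hE i hi).2.2.symm
    · exact (Subgroup.mem_center_iff.mp (hcen i hi) (x j)).symm

end Pool.Agent.Lib_MP_53dcbc_np
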