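import Pool.Agent.Lib_MP_53dcbc_np.Rel

/-!
# [NP-G] The fibre product trick

PROOFS.
* `Rel.normal`: let `h : Rel n m N E F x`, `m ≤ n`, `T x n = ⊤`. `T x m` is central: the `x i`, `i < m`
  commute with the generators `x j`. All commutators of the `x i` lie in `T x m` (`comm`, `wd_mem`; for
  `i > j` take inverses and conjugate (the element is central)), so `G ⧸ T x m` is commutative
  (generated by commuting elements: `Subgroup.closureCommGroupOfComm`), so all commutators of `G`
  lie in `T x m`. So `T x i` is normal: `i ≤ m`: it is central; `m ≤ i`: it contains all commutators.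
* `Rel.card_le`: `Nat.card G = Nat.card (T x n) ≤ ∏ i ∈ range n, N i` by `card_T_le`, `Rel.normal`.
* `iso_of_rel`: the subgroup `Γ` of `G × H` generated by the pairs `z i = (x i, y i)`, `i < n`. As a
  sequence of elements of `Γ` (take `z i = 1` for `i ≥ n` or first replace `x`, `y` by `1` there) it
  satisfies the same `Rel` (both coordinates), and generates `Γ`, so
  `Nat.card Γ ≤ ∏ N = Nat.card G = Nat.card H`. The projections `Γ → G`, `Γ → H` are onto (the image
  contains the generators), hence bijective.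
-/

set_option autoImplicit false

namespace Pool.Agent.Lib_MP_53dcbc_np

open Finset

private theorem wd_congr_seq {G : Type} [Group G] {x x' : ℕ → G} (e : ℕ → ℕ) (i : ℕ)
    (h : ∀ l < i, x l = x' l) : wd x e i = wd x' e i := by
  induction i with
  | zero => rfl
  | succ i ih =>
    show x i ^ e i * wd x e i = x' i ^ e i * wd x' e i
    rw [h i (Nat.lt_succ_self i), ih (fun l hl => h l (Nat.lt_succ_of_lt hl))]

private theorem Rel.mem_center {G : Type} [Group G] {n m : ℕ} {N : ℕ → ℕ} {E : ℕ → ℕ → ℕ}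
    {F : ℕ → ℕ → ℕ → ℕ} {x : ℕ → G} (h : Rel n m N E F x) (hT : T x n = ⊤) (i : ℕ) (hi : i < m) :
    x i ∈ Subgroup.center G := by
  rw [Subgroup.mem_center_iff]
  intro g
  have hle : T x n ≤ Subgroup.centralizer {x i} := by
    unfold T
    rw [Subgroup.closure_le]
    rintro _ ⟨j, hj, rfl⟩
    show x j ∈ Subgroup.centralizer {x i}
    rw [Subgroup.mem_centralizer_singleton_iff]
    exact (h.central i hi j hj).symm
  have hg : g ∈ Subgroup.centralizer {x i} := hle (by rw [hT]; trivial)
  rw [Subgroup.mem_centralizer_singleton_iff] at hg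
  exact hg

private theorem Rel.T_le_center {G : Type} [Group G] {n m : ℕ} {N : ℕ → ℕ} {E : ℕ → ℕ → ℕ}
    {F : ℕ → ℕ → ℕ → ℕ} {x : ℕ → G} (h : Rel n m N E F x) (hT : T x n = ⊤) :
    T x m ≤ Subgroup.center G := by
  unfold T
  rw [Subgroup.closure_le]
  rintro _ ⟨j, hj, rfl⟩
  exact h.mem_center hT j hj

private theorem Rel.comm_mem {G : Type} [Group G] {n m : ℕ} {N : ℕ → ℕ} {E : ℕ → ℕ → ℕ}
    {F : ℕ → ℕ → ℕ → ℕ} {x : ℕ → G} (h : Rel n m N E F x) (i j : ℕ) (hi : i < n) (hj : j < n) :
    x j * x i * (x j)⁻¹ * (x i)⁻¹ ∈ T x m := by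
  rcases lt_trichotomy i j with hij | hij | hij
  · rw [h.comm i j hij hj]
    exact wd_mem x _ m
  · subst hij
    have h1 : x i * x i * (x i)⁻¹ * (x i)⁻¹ = 1 := by group
    rw [h1]
    exact one_mem _
  · have h1 := h.comm j i hij hi
    have h2 : x j * x i * (x j)⁻¹ * (x i)⁻¹ = (x i * x j * (x i)⁻¹ * (x j)⁻¹)⁻¹ := by group
    rw [h2, h1]
    exact inv_mem (wd_mem x _ m)

private theorem Rel.comm_mem_all {G : Type} [Group G] {n m : ℕ} {N : ℕ → ℕ} {E : ℕ → ℕ → ℕ}
    {F : ℕ → ℕ → ℕ → ℕ} {x : ℕ → G} (h : Rel n m N E F x) (hT : T x n = ⊤) (y z : G) :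
    y * z * y⁻¹ * z⁻¹ ∈ T x m := by
  have hn : (T x m).Normal := by
    refine ⟨fun a ha g => ?_⟩
    have hc := h.T_le_center hT ha
    rw [Subgroup.mem_center_iff] at hc
    rw [hc g]
    rwa [mul_inv_cancel_right]
  have key : ∀ a b : G, (QuotientGroup.mk' (T x m)) a * (QuotientGroup.mk' (T x m)) b =
      (QuotientGroup.mk' (T x m)) b * (QuotientGroup.mk' (T x m)) a →
      a * b * a⁻¹ * b⁻¹ ∈ T x m := by
    intro a b hab
    rw [← QuotientGroup.ker_mk' (T x m), MonoidHom.mem_ker]
    rw [map_mul, map_mul, map_mul, hab, map_inv, map_inv, mul_inv_cancel_right, mul_inv_cancel]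
  have key' : ∀ a b : G, a * b * a⁻¹ * b⁻¹ ∈ T x m →
      (QuotientGroup.mk' (T x m)) a * (QuotientGroup.mk' (T x m)) b =
      (QuotientGroup.mk' (T x m)) b * (QuotientGroup.mk' (T x m)) a := by
    intro a b hab
    rw [← QuotientGroup.ker_mk' (T x m), MonoidHom.mem_ker] at hab
    rw [map_mul, map_mul, map_mul, map_inv, map_inv, mul_inv_eq_one, mul_inv_eq_iff_eq_mul] at hab
    exact hab
  -- every element commutes with the generators modulo `T x m`
  have h1 : ∀ i < n, ∀ g : G, (QuotientGroup.mk' (T x m)) g * (QuotientGroup.mk' (T x m)) (x i) =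
      (QuotientGroup.mk' (T x m)) (x i) * (QuotientGroup.mk' (T x m)) g := by
    intro i hi g
    have hle : T x n ≤ (Subgroup.centralizer {(QuotientGroup.mk' (T x m)) (x i)}).comap
        (QuotientGroup.mk' (T x m)) := by
      conv_lhs => unfold T
      rw [Subgroup.closure_le]
      rintro _ ⟨j, hj, rfl⟩
      show x j ∈ (Subgroup.centralizer {(QuotientGroup.mk' (T x m)) (x i)}).comap
        (QuotientGroup.mk' (T x m))
      rw [Subgroup.mem_comap, Subgroup.mem_centralizer_singleton_iff]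
      exact key' _ _ (h.comm_mem i j hi hj)
    have hg : g ∈ (Subgroup.centralizer {(QuotientGroup.mk' (T x m)) (x i)}).comap
        (QuotientGroup.mk' (T x m)) := hle (by rw [hT]; trivial)
    rw [Subgroup.mem_comap, Subgroup.mem_centralizer_singleton_iff] at hg
    exact hg
  have h2 : ∀ g k : G, (QuotientGroup.mk' (T x m)) k * (QuotientGroup.mk' (T x m)) g =
      (QuotientGroup.mk' (T x m)) g * (QuotientGroup.mk' (T x m)) k := by
    intro g k
    have hle : T x n ≤ (Subgroup.centralizer {(QuotientGroup.mk' (T x m)) k}).comap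
        (QuotientGroup.mk' (T x m)) := by
      conv_lhs => unfold T
      rw [Subgroup.closure_le]
      rintro _ ⟨j, hj, rfl⟩
      show x j ∈ (Subgroup.centralizer {(QuotientGroup.mk' (T x m)) k}).comap
        (QuotientGroup.mk' (T x m))
      rw [Subgroup.mem_comap, Subgroup.mem_centralizer_singleton_iff]
      exact (h1 j hj k).symm
    have hg : g ∈ (Subgroup.centralizer {(QuotientGroup.mk' (T x m)) k}).comap
        (QuotientGroup.mk' (T x m)) := hle (by rw [hT]; trivial)
    rw [Subgroup.mem_comap, Subgroup.mem_centralizer_singleton_iff] at hg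
    exact hg.symm
  exact key y z (h2 z y)

theorem Rel.normal {G : Type} [Group G] {n m : ℕ} {N : ℕ → ℕ} {E : ℕ → ℕ → ℕ}
    {F : ℕ → ℕ → ℕ → ℕ} {x : ℕ → G} (h : Rel n m N E F x) (hm : m ≤ n) (hT : T x n = ⊤) (i : ℕ) :
    (T x i).Normal :=
  normal_T x m (fun i hi => h.mem_center hT i hi) (fun y z => h.comm_mem_all hT y z) i

theorem Rel.card_le {G : Type} [Group G] [Finite G] {n m : ℕ} {N : ℕ → ℕ} {E : ℕ → ℕ → ℕ}
    {F : ℕ → ℕ → ℕ → ℕ} {x : ℕ → G} (h : Rel n m N E F x) (hm : m ≤ n) (hT : T x n = ⊤)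
    (hN : ∀ i < n, 0 < N i) : Nat.card G ≤ ∏ i ∈ range n, N i := by
  have h1 := card_T_le x N n (fun i _ => h.normal hm hT i) hN
    (fun i hi => by rw [h.pow i hi]; exact wd_mem x _ i) n le_rfl
  rw [hT] at h1
  rwa [Nat.card_congr (Subgroup.topEquiv (G := G)).toEquiv] at h1

theorem iso_of_rel {G H : Type} [Group G] [Finite G] [Group H] [Finite H] {n m : ℕ} {N : ℕ → ℕ}
    {E : ℕ → ℕ → ℕ} {F : ℕ → ℕ → ℕ → ℕ} {x : ℕ → G} {y : ℕ → H} (hx : Rel n m N E F x)
    (hy : Rel n m N E F y) (hm : m ≤ n) (hN : ∀ i < n, 0 < N i) (hTx : T x n = ⊤)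
    (hTy : T y n = ⊤) (hG : Nat.card G = ∏ i ∈ range n, N i)
    (hH : Nat.card H = ∏ i ∈ range n, N i) : Nonempty (G ≃* H) := by
  classical
  let z : ℕ → G × H := fun i => (x i, y i)
  let z' : ℕ → T z n := fun i => if h : i < n then ⟨z i, mem_T z h⟩ else 1
  have hz' : ∀ i < n, ((z' i : T z n) : G × H) = z i := by
    intro i hi
    show (((if h : i < n then ⟨z i, mem_T z h⟩ else 1 : T z n)) : G × H) = z i
    rw [dif_pos hi]
  have hfx : ∀ i < n, ((MonoidHom.fst G H).comp (T z n).subtype) (z' i) = x i := by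
    intro i hi
    show ((z' i : T z n) : G × H).1 = x i
    rw [hz' i hi]
  have hfy : ∀ i < n, ((MonoidHom.snd G H).comp (T z n).subtype) (z' i) = y i := by
    intro i hi
    show ((z' i : T z n) : G × H).2 = y i
    rw [hz' i hi]
  have hwx : ∀ (e : ℕ → ℕ) (i : ℕ), i ≤ n →
      ((MonoidHom.fst G H).comp (T z n).subtype) (wd z' e i) = wd x e i := by
    intro e i hi
    rw [map_wd]
    exact wd_congr_seq e i (fun l hl => hfx l (lt_of_lt_of_le hl hi))
  have hwy : ∀ (e : ℕ → ℕ) (i : ℕ), i ≤ n →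
      ((MonoidHom.snd G H).comp (T z n).subtype) (wd z' e i) = wd y e i := by
    intro e i hi
    rw [map_wd]
    exact wd_congr_seq e i (fun l hl => hfy l (lt_of_lt_of_le hl hi))
  have hext : ∀ a b : T z n, ((MonoidHom.fst G H).comp (T z n).subtype) a =
      ((MonoidHom.fst G H).comp (T z n).subtype) b →
      ((MonoidHom.snd G H).comp (T z n).subtype) a =
      ((MonoidHom.snd G H).comp (T z n).subtype) b → a = b := by
    intro a b h1 h2
    exact Subtype.ext (Prod.ext h1 h2)
  have hrel : Rel n m N E F z' := by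
    refine ⟨?_, ?_, ?_⟩
    · intro i hi
      apply hext
      · rw [map_pow, hfx i hi, hwx _ i hi.le, hx.pow i hi]
      · rw [map_pow, hfy i hi, hwy _ i hi.le, hy.pow i hi]
    · intro i j hij hj
      have hi : i < n := hij.trans hj
      apply hext
      · rw [map_mul, map_mul, map_mul, map_inv, map_inv, hfx i hi, hfx j hj, hwx _ m hm,
          hx.comm i j hij hj]
      · rw [map_mul, map_mul, map_mul, map_inv, map_inv, hfy i hi, hfy j hj, hwy _ m hm,
          hy.comm i j hij hj]
    · intro i hi j hj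
      have hi' : i < n := lt_of_lt_of_le hi hm
      apply hext
      · rw [map_mul, map_mul, hfx i hi', hfx j hj]
        exact hx.central i hi j hj
      · rw [map_mul, map_mul, hfy i hi', hfy j hj]
        exact hy.central i hi j hj
  have hTz : T z' n = ⊤ := by
    rw [eq_top_iff]
    intro g _
    have hle : T z n ≤ (T z' n).map (T z n).subtype := by
      conv_lhs => unfold T
      rw [Subgroup.closure_le]
      rintro _ ⟨j, hj, rfl⟩
      exact ⟨z' j, mem_T z' hj, hz' j hj⟩
    obtain ⟨k, hk, hkg⟩ := hle g.2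
    have : k = g := Subtype.ext hkg
    rw [← this]
    exact hk
  have hcard : Nat.card (T z n) ≤ ∏ i ∈ range n, N i := hrel.card_le hm hTz hN
  have hsx : Function.Surjective ((MonoidHom.fst G H).comp (T z n).subtype) := by
    rw [← MonoidHom.range_eq_top, eq_top_iff, ← hTx]
    unfold T
    rw [Subgroup.closure_le]
    rintro _ ⟨j, hj, rfl⟩
    exact ⟨z' j, hfx j hj⟩
  have hsy : Function.Surjective ((MonoidHom.snd G H).comp (T z n).subtype) := by
    rw [← MonoidHom.range_eq_top, eq_top_iff, ← hTy]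
    unfold T
    rw [Subgroup.closure_le]
    rintro _ ⟨j, hj, rfl⟩
    exact ⟨z' j, hfy j hj⟩
  have hbx := Function.Surjective.bijective_of_nat_card_le hsx (by rw [hG]; exact hcard)
  have hby := Function.Surjective.bijective_of_nat_card_le hsy (by rw [hH]; exact hcard)
  exact ⟨(MulEquiv.ofBijective _ hbx).symm.trans (MulEquiv.ofBijective _ hby)⟩

end Pool.Agent.Lib_MP_53dcbc_np
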