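import Pool.Agent.Lib_MP_53dcbc_np.Defs

/-!
# [NP-LA] Many groups of class two

`PT v` = pairs `i < j` in `Fin v`. For `f : PT (w + r) → (Fin w → ZMod p)` the group `Gf p w r f` has the
elements `(u, z)`, `u ∈ ZMod p × (Fin (w + r) → ZMod p)`, `z ∈ Fin w → ZMod p` and the product
`(u, z) (u', z') = (u + u', z + z' + bet f u u')`, `bet` bilinear.

PROOFS: direct computation. `classTwo_Gf`: the commutator of `x` and `y` is `(0, bet f x.u y.u - bet f y.u x.u)`, and
`(0, z)` is central.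
-/

set_option autoImplicit false

namespace Pool.Agent.Lib_MP_53dcbc_np

open Finset

/-- pairs `i < j` -/
abbrev PT (v : ℕ) : Type := {q : Fin v × Fin v // q.1 < q.2}

/-- the bilinear map -/
def bet {p w r : ℕ} (f : PT (w + r) → Fin w → ZMod p)
    (u u' : ZMod p × (Fin (w + r) → ZMod p)) : Fin w → ZMod p :=
  fun k => u.1 * u'.2 (Fin.castAdd r k) + ∑ q : PT (w + r), u.2 q.1.1 * u'.2 q.1.2 * f q k

/-- the underlying set of the group -/
@[ext] structure Gf (p w r : ℕ) (f : PT (w + r) → Fin w → ZMod p) where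
  u : ZMod p × (Fin (w + r) → ZMod p)
  z : Fin w → ZMod p

theorem bet_add_left {p w r : ℕ} (f : PT (w + r) → Fin w → ZMod p)
    (u u' v : ZMod p × (Fin (w + r) → ZMod p)) : bet f (u + u') v = bet f u v + bet f u' v := by
  funext k
  show (u + u').1 * v.2 (Fin.castAdd r k) + ∑ q : PT (w + r), (u + u').2 q.1.1 * v.2 q.1.2 * f q k =
    (u.1 * v.2 (Fin.castAdd r k) + ∑ q : PT (w + r), u.2 q.1.1 * v.2 q.1.2 * f q k) +
    (u'.1 * v.2 (Fin.castAdd r k) + ∑ q : PT (w + r), u'.2 q.1.1 * v.2 q.1.2 * f q k)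
  rw [Prod.fst_add, Prod.snd_add]
  simp only [Pi.add_apply, add_mul, Finset.sum_add_distrib]
  ring

theorem bet_add_right {p w r : ℕ} (f : PT (w + r) → Fin w → ZMod p)
    (u v v' : ZMod p × (Fin (w + r) → ZMod p)) : bet f u (v + v') = bet f u v + bet f u v' := by
  funext k
  show u.1 * (v + v').2 (Fin.castAdd r k) + ∑ q : PT (w + r), u.2 q.1.1 * (v + v').2 q.1.2 * f q k =
    (u.1 * v.2 (Fin.castAdd r k) + ∑ q : PT (w + r), u.2 q.1.1 * v.2 q.1.2 * f q k) +
    (u.1 * v'.2 (Fin.castAdd r k) + ∑ q : PT (w + r), u.2 q.1.1 * v'.2 q.1.2 * f q k)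
  rw [Prod.snd_add]
  simp only [Pi.add_apply, mul_add, add_mul, Finset.sum_add_distrib]
  ring

theorem bet_zero_left {p w r : ℕ} (f : PT (w + r) → Fin w → ZMod p)
    (v : ZMod p × (Fin (w + r) → ZMod p)) : bet f 0 v = 0 := by
  have h := bet_add_left f 0 0 v
  rw [add_zero] at h
  exact left_eq_add.mp h

theorem bet_zero_right {p w r : ℕ} (f : PT (w + r) → Fin w → ZMod p)
    (v : ZMod p × (Fin (w + r) → ZMod p)) : bet f v 0 = 0 := by
  have h := bet_add_right f v 0 0
  rw [add_zero] at h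
  exact left_eq_add.mp h

theorem bet_neg_left {p w r : ℕ} (f : PT (w + r) → Fin w → ZMod p)
    (u v : ZMod p × (Fin (w + r) → ZMod p)) : bet f (-u) v = - bet f u v := by
  have h := bet_add_left f (-u) u v
  rw [neg_add_cancel, bet_zero_left] at h
  exact eq_neg_of_add_eq_zero_left h.symm

instance {p w r : ℕ} (f : PT (w + r) → Fin w → ZMod p) : Mul (Gf p w r f) :=
  ⟨fun x y => ⟨x.u + y.u, x.z + y.z + bet f x.u y.u⟩⟩

instance {p w r : ℕ} (f : PT (w + r) → Fin w → ZMod p) : One (Gf p w r f) := ⟨⟨0, 0⟩⟩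

instance {p w r : ℕ} (f : PT (w + r) → Fin w → ZMod p) : Inv (Gf p w r f) :=
  ⟨fun x => ⟨-x.u, -x.z + bet f x.u x.u⟩⟩

instance {p w r : ℕ} (f : PT (w + r) → Fin w → ZMod p) : Group (Gf p w r f) :=
  Group.ofLeftAxioms
    (fun x y z => Gf.ext (add_assoc _ _ _) (by
      change x.z + y.z + bet f x.u y.u + z.z + bet f (x.u + y.u) z.u =
        x.z + (y.z + z.z + bet f y.u z.u) + bet f x.u (y.u + z.u)
      rw [bet_add_left, bet_add_right]
      abel))
    (fun x => Gf.ext (zero_add _) (by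
      change 0 + x.z + bet f 0 x.u = x.z
      rw [bet_zero_left, zero_add, add_zero]))
    (fun x => Gf.ext (neg_add_cancel _) (by
      change -x.z + bet f x.u x.u + x.z + bet f (-x.u) x.u = 0
      rw [bet_neg_left]
      abel))

theorem classTwo_Gf {p w r : ℕ} (f : PT (w + r) → Fin w → ZMod p) : ClassTwo (Gf p w r f) := by
  intro x y
  have hu : (x * y * x⁻¹ * y⁻¹).u = 0 := by
    change x.u + y.u + -x.u + -y.u = 0
    abel
  rw [Subgroup.mem_center_iff]
  intro g
  generalize x * y * x⁻¹ * y⁻¹ = c at hu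
  refine Gf.ext (add_comm _ _) ?_
  change g.z + c.z + bet f g.u c.u = c.z + g.z + bet f c.u g.u
  rw [hu, bet_zero_left, bet_zero_right, add_comm g.z c.z]

theorem card_Gf {p w r : ℕ} [NeZero p] (f : PT (w + r) → Fin w → ZMod p) :
    Nat.card (Gf p w r f) = p ^ (1 + (w + r) + w) := by
  let e : Gf p w r f ≃ (ZMod p × (Fin (w + r) → ZMod p)) × (Fin w → ZMod p) :=
    { toFun := fun x => (x.u, x.z)
      invFun := fun y => ⟨y.1, y.2⟩
      left_inv := fun _ => rfl
      right_inv := fun _ => rfl }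
  rw [Nat.card_congr e, Nat.card_eq_fintype_card, Fintype.card_prod, Fintype.card_prod,
    Fintype.card_fun, Fintype.card_fun, ZMod.card, Fintype.card_fin, Fintype.card_fin]
  ring

end Pool.Agent.Lib_MP_53dcbc_np
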