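import Pool.Agent.Lib_MP_53dcbc_np.LowerF

/-!
# [NP-LB] The number of types is large

PROOFS. `finite_group`: a group structure on `Fin N` is determined by its multiplication (`Group.ext`).
`toFin`: transport the group structure along `Nat.card G = N` (`Finite.equivFinOfCardEq`, `Equiv.group`).
`lower`: the map `f ↦` (the type of `Gf p w r f`) from `PT (w + r) → Fin w → ZMod p` (which has
`p ^ (w * (w + r).choose 2)` elements; `PT v` has `v.choose 2` elements) to `types _ ClassTwo` has fibres of size
at most `p ^ ((w + r + 1) * (w + r) + w ^ 2)` (`fiber`); `Finset.card_le_mul_card_image`.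
-/

set_option autoImplicit false

namespace Pool.Agent.Lib_MP_53dcbc_np

open Finset

instance finite_group (N : ℕ) : Finite (Group (Fin N)) := by
  refine Finite.of_injective
    (fun g : Group (Fin N) => (fun x y => g.mul x y : Fin N → Fin N → Fin N)) ?_
  intro g h hgh
  exact Group.ext hgh

/-- every finite group has a type -/
theorem toFin {G : Type} [Group G] {N : ℕ} (hG : Nat.card G = N) (hN : N ≠ 0) :
    ∃ g : Group (Fin N), ∃ e : G ≃ Fin N, ∀ x y, e (x * y) = g.mul (e x) (e y) := by
  have : Finite G := Nat.finite_of_card_ne_zero (by rw [hG]; exact hN)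
  let e : G ≃ Fin N := Finite.equivFinOfCardEq hG
  refine ⟨e.symm.group, e, fun x y => ?_⟩
  show e (x * y) = e (e.symm (e x) * e.symm (e y))
  rw [Equiv.symm_apply_apply, Equiv.symm_apply_apply]

private theorem transport_aux {G H : Type} [Group G] [Group H] (e : G ≃ H)
    (he : ∀ x y, e (x * y) = e x * e y) (h : ClassTwo G) : ClassTwo H := by
  let φ : G ≃* H := { e with map_mul' := he }
  intro x y
  obtain ⟨a, rfl⟩ := φ.surjective x
  obtain ⟨b, rfl⟩ := φ.surjective y
  rw [← map_inv, ← map_inv, ← map_mul, ← map_mul, ← map_mul, Subgroup.mem_center_iff]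
  intro z
  obtain ⟨c, rfl⟩ := φ.surjective z
  rw [← map_mul, ← map_mul, Subgroup.mem_center_iff.mp (h a b) c]

/-- the property `ClassTwo` is transported by isomorphisms -/
theorem ClassTwo.transport {G : Type} [Group G] {N : ℕ} (g : Group (Fin N)) (e : G ≃ Fin N)
    (he : ∀ x y, e (x * y) = g.mul (e x) (e y)) (h : ClassTwo G) : @ClassTwo (Fin N) g := by
  exact @transport_aux G (Fin N) _ g e he h

theorem card_PT (v : ℕ) : Fintype.card (PT v) = v.choose 2 := by
  rw [Fintype.card_subtype, card_filter, Fintype.sum_prod_type_right]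
  have h1 : ∀ j : Fin v, (∑ i : Fin v, if i < j then 1 else 0) = (j : ℕ) := by
    intro j
    rw [← card_filter]
    have h2 : (univ.filter fun i : Fin v => i < j) = Iio j := by
      ext i
      simp
    rw [h2, Fin.card_Iio]
  rw [sum_congr rfl fun j _ => h1 j, Fin.sum_univ_eq_sum_range (fun i => i) v, Finset.sum_range_id,
    Nat.choose_two_right]

theorem lower {p w r : ℕ} (hp : p.Prime) :
    p ^ (w * (w + r).choose 2) ≤ p ^ ((w + r + 1) * (w + r) + w ^ 2) *
      numTypes (p ^ (1 + (w + r) + w)) (fun G _ => ClassTwo G) := by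
  classical
  have : NeZero p := ⟨hp.ne_zero⟩
  set N := p ^ (1 + (w + r) + w) with hN
  have hN0 : N ≠ 0 := pow_ne_zero _ hp.ne_zero
  have hex : ∀ f : PT (w + r) → Fin w → ZMod p, ∃ g : Group (Fin N),
      ∃ e : Gf p w r f ≃ Fin N, ∀ x y, e (x * y) = g.mul (e x) (e y) := fun f =>
    toFin (card_Gf f) hN0
  choose g e he using hex
  set F : (PT (w + r) → Fin w → ZMod p) → Quotient (isoSetoid N) := fun f =>
    Quotient.mk (isoSetoid N) (g f) with hF
  have hfib : ∀ f f₀, F f = F f₀ → Nonempty (Gf p w r f ≃* Gf p w r f₀) := by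
    intro f f₀ h
    obtain ⟨s, hs⟩ := Quotient.exact h
    refine ⟨{ ((e f).trans s).trans (e f₀).symm with map_mul' := fun x y => ?_ }⟩
    show (e f₀).symm (s (e f (x * y))) = (e f₀).symm (s (e f x)) * (e f₀).symm (s (e f y))
    rw [Equiv.symm_apply_eq, he f₀, Equiv.apply_symm_apply, Equiv.apply_symm_apply, he f, hs]
  have h1 := Finset.card_le_mul_card_image (f := F) (univ : Finset (PT (w + r) → Fin w → ZMod p))
    (p ^ ((w + r + 1) * (w + r) + w ^ 2)) (by
      intro c hc
      obtain ⟨f₀, -, rfl⟩ := mem_image.mp hc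
      rw [← Set.ncard_coe_finset]
      refine (Set.ncard_le_ncard ?_ (Set.toFinite _)).trans (fiber hp f₀)
      intro f hf
      exact hfib f f₀ (mem_filter.mp (mem_coe.mp hf)).2)
  have h2 : (image F univ).card ≤ numTypes N (fun G _ => ClassTwo G) := by
    unfold numTypes
    rw [← Set.ncard_coe_finset]
    refine Set.ncard_le_ncard ?_ (Set.toFinite _)
    intro c hc
    obtain ⟨f, -, rfl⟩ := mem_image.mp (mem_coe.mp hc)
    exact ⟨g f, rfl, ClassTwo.transport (g f) (e f) (he f) (classTwo_Gf f)⟩
  have h3 : (univ : Finset (PT (w + r) → Fin w → ZMod p)).card = p ^ (w * (w + r).choose 2) := by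
    rw [card_univ, Fintype.card_fun, Fintype.card_fun, Fintype.card_fin, ZMod.card, card_PT,
      pow_mul]
  rw [h3] at h1
  exact h1.trans (Nat.mul_le_mul_left _ h2)

end Pool.Agent.Lib_MP_53dcbc_np
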