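import Pool.Agent.Lib_MP_53dcbc_np.LowerA

/-!
# [NP-LF] Few of the groups are isomorphic to a given one

PROOF of `fiber`. Let `b k = (0, 0, e_k)`, `c = (1, 0; 0)`, `a i = (0, e_i; 0)` (`e_i = Pi.single i 1`). In every
`Gf f`: `x * y * x⁻¹ * y⁻¹ = (0, bet u u' - bet u' u)` for `x = (u, z)`, `y = (u', z')`. So the
commutator of `c` and `a (castAdd k)` is `b k` (`k : Fin w`) and the commutator of `a i` and `a j`, `i < j`, is
`(0, f ⟨(i, j), _⟩)`. Let `φ : Gf f ≃* Gf f₀`. Then `φ (b k)` is a commutator, so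
`φ (b k) = (0, Q k)`; put `P i = (φ (a i)).1`. `φ (0, z) = (0, ∑ k, z k • Q k)` for all `z` (the elements
`(0, z)` form a group isomorphic to `Fin w → ZMod p`; `z` is a product of powers of the `b k`), and
`z ↦ ∑ z k • Q k` is injective. For `i < j`:
`∑ k, f ⟨(i,j),_⟩ k • Q k = bet f₀ (P i) (P j) - bet f₀ (P j) (P i)`. So `f` is determined by `P`, `Q` (for given
`f₀`): the map `f ↦ (P, Q)` (choose `φ`) is injective on `{f | Nonempty (Gf f ≃* Gf f₀)}`, and there are
`(p ^ (w + r + 1)) ^ (w + r) * (p ^ w) ^ w` pairs `(P, Q)`.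
-/

set_option autoImplicit false

namespace Pool.Agent.Lib_MP_53dcbc_np

open Finset

private theorem mul_u {p w r : ℕ} (f : PT (w + r) → Fin w → ZMod p) (x y : Gf p w r f) :
    (x * y).u = x.u + y.u := rfl

private theorem mul_z {p w r : ℕ} (f : PT (w + r) → Fin w → ZMod p) (x y : Gf p w r f) :
    (x * y).z = x.z + y.z + bet f x.u y.u := rfl

private theorem comm {p w r : ℕ} (f : PT (w + r) → Fin w → ZMod p) (x y : Gf p w r f) :
    x * y = ⟨0, bet f x.u y.u - bet f y.u x.u⟩ * (y * x) := by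
  refine Gf.ext ?_ ?_
  · rw [mul_u, mul_u, mul_u]
    change x.u + y.u = 0 + (y.u + x.u)
    rw [zero_add]
    exact add_comm x.u y.u
  · rw [mul_z, mul_z, mul_z, mul_u]
    change x.z + y.z + bet f x.u y.u = (bet f x.u y.u - bet f y.u x.u) +
      (y.z + x.z + bet f y.u x.u) + bet f 0 (y.u + x.u)
    rw [bet_zero_left]
    abel

private def aa {p w r : ℕ} (f : PT (w + r) → Fin w → ZMod p) (i : Fin (w + r)) : Gf p w r f :=
  ⟨(0, Pi.single i 1), 0⟩

private theorem comm_aa {p w r : ℕ} (f : PT (w + r) → Fin w → ZMod p) (q : PT (w + r)) :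
    aa f q.1.1 * aa f q.1.2 = ⟨0, f q⟩ * (aa f q.1.2 * aa f q.1.1) := by
  rw [comm f (aa f q.1.1) (aa f q.1.2)]
  congr 2
  funext k
  have h1 : bet f (aa f q.1.1).u (aa f q.1.2).u k = f q k := by
    simp only [bet, aa, zero_mul, zero_add]
    rw [Finset.sum_eq_single q]
    · simp
    · intro q' _ hq
      by_cases h : q'.1.1 = q.1.1
      · have h2 : q'.1.2 ≠ q.1.2 := fun h2 => hq (Subtype.ext (Prod.ext h h2))
        rw [Pi.single_eq_of_ne h2, mul_zero, zero_mul]
      · rw [Pi.single_eq_of_ne h, zero_mul, zero_mul]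
    · intro h
      exact absurd (Finset.mem_univ q) h
  have h2 : bet f (aa f q.1.2).u (aa f q.1.1).u k = 0 := by
    simp only [bet, aa, zero_mul, zero_add]
    refine Finset.sum_eq_zero fun q' _ => ?_
    by_cases h : q'.1.1 = q.1.2
    · have h2 : q'.1.2 ≠ q.1.1 := by
        intro h2
        have h3 := q'.2
        rw [h, h2] at h3
        exact absurd h3 (not_lt.2 q.2.le)
      rw [Pi.single_eq_of_ne h2, mul_zero, zero_mul]
    · rw [Pi.single_eq_of_ne h, zero_mul, zero_mul]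
  rw [Pi.sub_apply, h1, h2, sub_zero]

private theorem comm_c {p w r : ℕ} (f : PT (w + r) → Fin w → ZMod p) (k : Fin w) :
    (⟨(1, 0), 0⟩ : Gf p w r f) * aa f (Fin.castAdd r k) =
      ⟨0, Pi.single k 1⟩ * (aa f (Fin.castAdd r k) * ⟨(1, 0), 0⟩) := by
  rw [comm f ⟨(1, 0), 0⟩ (aa f (Fin.castAdd r k))]
  congr 2
  funext l
  simp only [bet, aa, Pi.sub_apply, Pi.zero_apply, zero_mul, mul_zero, Finset.sum_const_zero,
    add_zero, one_mul, sub_zero]
  by_cases h : l = k
  · subst h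
    simp
  · rw [Pi.single_eq_of_ne h, Pi.single_eq_of_ne]
    intro h2
    exact h (Fin.castAdd_injective w r h2)

private theorem key {p w r : ℕ} [Fact p.Prime] (f f₀ : PT (w + r) → Fin w → ZMod p)
    (φ : Gf p w r f ≃* Gf p w r f₀) :
    ∃ B : (Fin w → ZMod p) →ₗ[ZMod p] (Fin w → ZMod p), Function.Injective B ∧
      (∀ k, B (Pi.single k 1) = (φ ⟨0, Pi.single k 1⟩).z) ∧
      ∀ q : PT (w + r), B (f q) = bet f₀ (φ (aa f q.1.1)).u (φ (aa f q.1.2)).u -
        bet f₀ (φ (aa f q.1.2)).u (φ (aa f q.1.1)).u := by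
  have hcom : ∀ (x y c : Gf p w r f), x * y = c * (y * x) →
      φ c = ⟨0, bet f₀ (φ x).u (φ y).u - bet f₀ (φ y).u (φ x).u⟩ := by
    intro x y c h
    have h1 := congrArg φ h
    rw [map_mul, map_mul, map_mul, comm f₀ (φ x) (φ y)] at h1
    exact (mul_right_cancel h1).symm
  have hadd : ∀ z z' : Fin w → ZMod p,
      (⟨0, z + z'⟩ : Gf p w r f) = ⟨0, z⟩ * ⟨0, z'⟩ := by
    intro z z'
    refine Gf.ext ?_ ?_
    · rw [mul_u]
      exact (add_zero _).symm
    · rw [mul_z]
      change z + z' = z + z' + bet f 0 0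
      rw [bet_zero_left, add_zero]
  let A : (Fin w → ZMod p) →+ (ZMod p × (Fin (w + r) → ZMod p)) :=
    AddMonoidHom.mk' (fun z => (φ ⟨0, z⟩).u) (by
      intro z z'
      rw [hadd, map_mul, mul_u])
  have hA : ∀ z, A z = 0 := by
    intro z
    have h1 : (A.toZModLinearMap p) = 0 := by
      refine LinearMap.pi_ext' fun k => ?_
      refine LinearMap.ext_ring ?_
      change (φ ⟨0, Pi.single k 1⟩).u = 0
      rw [hcom _ _ _ (comm_c f k)]
    have h2 := LinearMap.congr_fun h1 z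
    exact h2
  let B : (Fin w → ZMod p) →+ (Fin w → ZMod p) :=
    AddMonoidHom.mk' (fun z => (φ ⟨0, z⟩).z) (by
      intro z z'
      rw [hadd, map_mul, mul_z]
      have h1 : (φ ⟨0, z⟩).u = 0 := hA z
      rw [h1, bet_zero_left, add_zero])
  refine ⟨B.toZModLinearMap p, ?_, fun k => rfl, fun q => ?_⟩
  · intro z z' h
    have h1 : φ ⟨0, z⟩ = φ ⟨0, z'⟩ := Gf.ext ((hA z).trans (hA z').symm) h
    have h2 := φ.injective h1
    exact congrArg Gf.z h2
  · change (φ ⟨0, f q⟩).z = _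
    rw [hcom _ _ _ (comm_aa f q)]

theorem fiber {p w r : ℕ} (hp : p.Prime) (f₀ : PT (w + r) → Fin w → ZMod p) :
    {f : PT (w + r) → Fin w → ZMod p | Nonempty (Gf p w r f ≃* Gf p w r f₀)}.ncard ≤
      p ^ ((w + r + 1) * (w + r) + w ^ 2) := by
  have := Fact.mk hp
  have : NeZero p := ⟨hp.ne_zero⟩
  let S := {f : PT (w + r) → Fin w → ZMod p | Nonempty (Gf p w r f ≃* Gf p w r f₀)}
  let D : S → (Fin (w + r) → ZMod p × (Fin (w + r) → ZMod p)) × (Fin w → Fin w → ZMod p) :=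
    fun s => (fun i => (s.2.some (aa s.1 i)).u, fun k => (s.2.some ⟨0, Pi.single k 1⟩).z)
  have hD : Function.Injective D := by
    intro s s' h
    have hP : ∀ i, (s.2.some (aa s.1 i)).u = (s'.2.some (aa s'.1 i)).u := fun i =>
      congrFun (congrArg Prod.fst h) i
    have hQ : ∀ k, (s.2.some ⟨0, Pi.single k 1⟩).z = (s'.2.some ⟨0, Pi.single k 1⟩).z := fun k =>
      congrFun (congrArg Prod.snd h) k
    obtain ⟨B, hB, hBk, hBq⟩ := key s.1 f₀ s.2.some
    obtain ⟨B', hB', hBk', hBq'⟩ := key s'.1 f₀ s'.2.some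
    have hBB : B = B' := by
      refine LinearMap.pi_ext' fun k => LinearMap.ext_ring ?_
      change B (Pi.single k 1) = B' (Pi.single k 1)
      rw [hBk, hBk', hQ]
    refine Subtype.ext (funext fun q => hB ?_)
    rw [hBq q, hBB, hBq' q, hP, hP]
  have h1 : Nat.card S ≤
      Nat.card ((Fin (w + r) → ZMod p × (Fin (w + r) → ZMod p)) × (Fin w → Fin w → ZMod p)) :=
    Nat.card_le_card_of_injective D hD
  have h2 : Nat.card ((Fin (w + r) → ZMod p × (Fin (w + r) → ZMod p)) ×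
      (Fin w → Fin w → ZMod p)) = p ^ ((w + r + 1) * (w + r) + w ^ 2) := by
    rw [Nat.card_eq_fintype_card]
    simp only [Fintype.card_prod, Fintype.card_pi, Finset.prod_const, Finset.card_univ,
      Fintype.card_fin, ZMod.card]
    ring
  rw [h2] at h1
  exact h1

end Pool.Agent.Lib_MP_53dcbc_np
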