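import Pool.Agent.Lib_MP_53dcbc_np.Count

/-!
# [NP-N] Numerical estimates

PROOFS.
`QQ_le`: with `h = hh d = (d + 1) / 2` (so `d = 2 h` or `d = 2 h - 1`) and `ww a d m ≤ a - h`,
`QQ a d m = m * C(d,2) - (m - ww) * C(h,2) ≤ m * C(d,2) - (m - a + h) * C(h,2)` (as reals or integers), which is
increasing in `m` (`C(h,2) ≤ C(d,2)`), so at most its value for `m = 2 a - d`:
`(2 a - d) * C(d,2) - (a - d + h) * C(h,2)`; `a - d + h ≥ (2 a - d) / 2` and `C(h,2) ≥ d (d - 2) / 8`, so it is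
at most `(2 a - d) d (7 d - 6) / 16 ≤ (7/16) d^2 (2 a - d) ≤ (7/16) (4/27) (2 a)^3 = (14/27) a^3`, because
`4 n^3 - 27 (n - d) d^2 = (3 d - 2 n)^2 (3 d + n) ≥ 0`.
`codes_le`: `codes p a` is the union over the pairs `(d, m)`, `m + d ≤ 2 a` (at most `(2 a + 1) ^ 2` pairs) of
copies of `goodSet p a d m`.
`lower_num`: with `w = 2 a / 3`, `r = 2 a - 1 - 2 w`.
-/

set_option autoImplicit false

namespace Pool.Agent.Lib_MP_53dcbc_np

open Finset

private theorem choose_real (n : ℕ) : ((n.choose 2 : ℕ) : ℝ) = (n : ℝ) * ((n : ℝ) - 1) / 2 :=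
  Nat.cast_choose_two ℝ n

private theorem QQ_real {a d m : ℕ} (h : m + d ≤ 2 * a) (hd : hh d ≤ a) :
    27 * ((QQ a d m : ℕ) : ℝ) ≤ 14 * (a : ℝ) ^ 3 := by
  have hhd : hh d ≤ d := by
    unfold hh
    omega
  have hch : (hh d).choose 2 ≤ d.choose 2 := Nat.choose_le_choose 2 hhd
  have hw : (ww a d m : ℝ) ≤ (a : ℝ) - (hh d : ℝ) := by
    rw [← Nat.cast_sub hd]
    exact_mod_cast min_le_right _ _
  have h1 : (m : ℝ) + (d : ℝ) ≤ 2 * (a : ℝ) := by exact_mod_cast h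
  have h2 : (d : ℝ) ≤ 2 * (hh d : ℝ) := by
    have : d ≤ 2 * hh d := by
      unfold hh
      omega
    exact_mod_cast this
  have h3 : 2 * (hh d : ℝ) ≤ (d : ℝ) + 1 := by
    have : 2 * hh d ≤ d + 1 := by
      unfold hh
      omega
    exact_mod_cast this
  have hchR : (((hh d).choose 2 : ℕ) : ℝ) ≤ ((d.choose 2 : ℕ) : ℝ) := by exact_mod_cast hch
  have hc0 : (0 : ℝ) ≤ (((hh d).choose 2 : ℕ) : ℝ) := Nat.cast_nonneg _
  have hQ : ((QQ a d m : ℕ) : ℝ) = (m : ℝ) * (((d.choose 2 : ℕ) : ℝ) - (((hh d).choose 2 : ℕ) : ℝ)) +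
      (ww a d m : ℝ) * (((hh d).choose 2 : ℕ) : ℝ) := by
    unfold QQ
    push_cast [Nat.cast_sub hch]
    ring
  -- lower bound for `C(h,2)`
  have hcl : (d : ℝ) * ((d : ℝ) - 2) / 8 ≤ (((hh d).choose 2 : ℕ) : ℝ) := by
    rw [choose_real]
    rcases Nat.even_or_odd' d with ⟨k, hk | hk⟩
    · have e : hh d = k := by
        unfold hh
        omega
      rw [e, hk]
      push_cast
      nlinarith
    · have e : hh d = k + 1 := by
        unfold hh
        omega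
      rw [e, hk]
      push_cast
      have : (0 : ℝ) ≤ (k : ℝ) := Nat.cast_nonneg k
      nlinarith
  have hcd := choose_real d
  have ha0 : (0 : ℝ) ≤ (a : ℝ) := Nat.cast_nonneg a
  have hd0 : (0 : ℝ) ≤ (d : ℝ) := Nat.cast_nonneg d
  have hm0 : (0 : ℝ) ≤ (m : ℝ) := Nat.cast_nonneg m
  set A : ℝ := (a : ℝ) with hA
  set D : ℝ := (d : ℝ) with hD
  set M : ℝ := (m : ℝ) with hM
  set H : ℝ := (hh d : ℝ) with hH
  set c : ℝ := (((hh d).choose 2 : ℕ) : ℝ) with hc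
  set e : ℝ := ((d.choose 2 : ℕ) : ℝ) with he
  set W : ℝ := (ww a d m : ℝ) with hW
  have hy0 : 0 ≤ 2 * A - D := by linarith
  -- first bound
  have s1 : ((QQ a d m : ℕ) : ℝ) ≤ (2 * A - D) * (e - c) + (A - H) * c := by
    rw [hQ]
    have t1 : M * (e - c) ≤ (2 * A - D) * (e - c) :=
      mul_le_mul_of_nonneg_right (by linarith) (by linarith)
    have t2 : W * c ≤ (A - H) * c := mul_le_mul_of_nonneg_right hw hc0
    linarith
  have s2 : (2 * A - D) * (e - c) + (A - H) * c ≤ (2 * A - D) * e - (2 * A - D) / 2 * c := by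
    have t1 : 0 ≤ (2 * H - D) * c := mul_nonneg (by linarith) hc0
    nlinarith
  have s3 : (2 * A - D) / 2 * (D * (D - 2) / 8) ≤ (2 * A - D) / 2 * c :=
    mul_le_mul_of_nonneg_left hcl (by linarith)
  have s4 : ((QQ a d m : ℕ) : ℝ) ≤ (2 * A - D) * (D * (D - 1) / 2) -
      (2 * A - D) / 2 * (D * (D - 2) / 8) := by
    have t1 := s1.trans s2
    rw [hcd] at t1
    linarith
  have s5 : (2 * A - D) * (D * (D - 1) / 2) - (2 * A - D) / 2 * (D * (D - 2) / 8) ≤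
      7 / 16 * ((2 * A - D) * D ^ 2) := by
    have t1 : 0 ≤ (2 * A - D) * D := mul_nonneg hy0 hd0
    nlinarith
  have s6 : 27 * ((2 * A - D) * D ^ 2) ≤ 32 * A ^ 3 := by
    have t1 : 0 ≤ (3 * D - 2 * (2 * A)) ^ 2 * (3 * D + 2 * A) :=
      mul_nonneg (sq_nonneg _) (by linarith)
    have t2 : (3 * D - 2 * (2 * A)) ^ 2 * (3 * D + 2 * A) =
        32 * A ^ 3 - 27 * ((2 * A - D) * D ^ 2) := by ring
    linarith
  linarith

theorem QQ_le {a d m : ℕ} (h : m + d ≤ 2 * a) (hd : hh d ≤ a) : 27 * QQ a d m ≤ 14 * a ^ 3 := by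
  exact_mod_cast QQ_real h hd

private theorem fib_num {α β : Type} (S : Set (α × β)) (A : Finset α) (B : ℕ)
    (h1 : ∀ c ∈ S, c.1 ∈ A)
    (h2 : ∀ a ∈ A, {b | (a, b) ∈ S}.Finite ∧ {b | (a, b) ∈ S}.ncard ≤ B) :
    S.Finite ∧ S.ncard ≤ A.card * B := by
  classical
  let T : α → Finset (α × β) := fun a =>
    if h : {b | (a, b) ∈ S}.Finite then h.toFinset.image (Prod.mk a) else ∅
  have hsub : S ⊆ ↑(A.biUnion T) := by
    intro c hc
    rw [Finset.mem_coe, Finset.mem_biUnion]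
    have hcA := h1 c hc
    refine ⟨c.1, hcA, ?_⟩
    simp only [T]
    rw [dif_pos (h2 c.1 hcA).1, Finset.mem_image]
    exact ⟨c.2, (h2 c.1 hcA).1.mem_toFinset.2 hc, rfl⟩
  have hcard : (A.biUnion T).card ≤ A.card * B := by
    refine Finset.card_biUnion_le_card_mul _ _ _ fun a ha => ?_
    simp only [T]
    rw [dif_pos (h2 a ha).1]
    refine Finset.card_image_le.trans ?_
    rw [← Set.ncard_eq_toFinset_card _ (h2 a ha).1]
    exact (h2 a ha).2
  refine ⟨(Finset.finite_toSet _).subset hsub, ?_⟩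
  refine (Set.ncard_le_ncard hsub (Finset.finite_toSet _)).trans ?_
  rw [Set.ncard_coe_finset]
  exact hcard

private theorem two_mul_succ_le (a : ℕ) : 2 * a + 1 ≤ 2 ^ (2 * a) := by
  induction a with
  | zero => norm_num
  | succ a ih =>
    have : 2 ^ (2 * (a + 1)) = 4 * 2 ^ (2 * a) := by
      rw [mul_add, pow_add]
      ring
    have h1 : 1 ≤ 2 ^ (2 * a) := Nat.one_le_two_pow
    omega

theorem codes_le {p a : ℕ} (hp : p.Prime) :
    (codes p a).Finite ∧ ((codes p a).ncard : ℝ) ≤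
      (p : ℝ) ^ (14 / 27 * (a : ℝ) ^ 3 + 20 * (a : ℝ) ^ 2 : ℝ) := by
  classical
  have hp2 : 2 ≤ p := hp.two_le
  have hp1 : (1 : ℝ) ≤ (p : ℝ) := by exact_mod_cast hp.one_lt.le
  have hp0 : (0 : ℝ) < (p : ℝ) := by linarith
  set q : ℕ := 14 * a ^ 3 / 27 with hq
  set B : ℕ := (p ^ (2 * a) + 1) ^ (2 * a) * (p ^ (2 * a)) ^ (2 * a) * p ^ q with hB
  set P : Finset (ℕ × ℕ) := ((range (2 * a + 1)) ×ˢ (range (2 * a + 1))).filter
    fun c => c.2 + c.1 ≤ 2 * a ∧ hh c.1 ≤ a with hP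
  have hPcard : P.card ≤ (2 * a + 1) * (2 * a + 1) := by
    refine (Finset.card_filter_le _ _).trans ?_
    rw [Finset.card_product, Finset.card_range]
  obtain ⟨f1, f2⟩ := fib_num (codes p a) P B (by
      rintro ⟨⟨d, m⟩, c⟩ ⟨h1, h2, _⟩
      simp only at h1 h2
      rw [hP, Finset.mem_filter, Finset.mem_product, Finset.mem_range, Finset.mem_range]
      exact ⟨⟨by simp only; omega, by simp only; omega⟩, h1, h2⟩)
    (by
      rintro ⟨d, m⟩ hdm
      rw [hP, Finset.mem_filter] at hdm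
      obtain ⟨-, h1, h2⟩ := hdm
      simp only at h1 h2
      obtain ⟨g1, g2⟩ := card_goodSet hp h1
      have hsub : {b : (ℕ → ℕ) × (ℕ → ℕ → ℕ) × (ℕ → ℕ → ℕ → ℕ) | ((d, m), b) ∈ codes p a} ⊆
          goodSet p a d m := by
        intro b hb
        exact hb.2.2
      refine ⟨g1.subset hsub, (Set.ncard_le_ncard hsub g1).trans (g2.trans ?_)⟩
      apply Nat.mul_le_mul_left
      apply Nat.pow_le_pow_right (by omega)
      rw [hq, Nat.le_div_iff_mul_le (by norm_num)]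
      have := QQ_le h1 h2
      linarith)
  refine ⟨f1, ?_⟩
  -- natural number bound
  have k1 : (2 * a + 1) * (2 * a + 1) ≤ p ^ (4 * a) := by
    calc (2 * a + 1) * (2 * a + 1) ≤ 2 ^ (2 * a) * 2 ^ (2 * a) :=
          Nat.mul_le_mul (two_mul_succ_le a) (two_mul_succ_le a)
      _ = 2 ^ (4 * a) := by
          rw [← pow_add]
          congr 1
          ring
      _ ≤ p ^ (4 * a) := Nat.pow_le_pow_left hp2 _
  have k2 : (p ^ (2 * a) + 1) ^ (2 * a) ≤ p ^ ((2 * a + 1) * (2 * a)) := by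
    rw [pow_mul p (2 * a + 1) (2 * a)]
    apply Nat.pow_le_pow_left
    have h1 : 1 ≤ p ^ (2 * a) := Nat.one_le_pow _ _ (by omega)
    have h2 : p ^ (2 * a + 1) = p ^ (2 * a) * p := pow_succ _ _
    rw [h2]
    nlinarith
  have k3 : (codes p a).ncard ≤ p ^ (20 * a ^ 2 + q) := by
    refine f2.trans ?_
    calc P.card * B ≤ p ^ (4 * a) * (p ^ ((2 * a + 1) * (2 * a)) * (p ^ (2 * a)) ^ (2 * a) * p ^ q) := by
          apply Nat.mul_le_mul (hPcard.trans k1)
          rw [hB]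
          exact Nat.mul_le_mul_right _ (Nat.mul_le_mul_right _ k2)
      _ = p ^ (4 * a + ((2 * a + 1) * (2 * a) + (2 * a) * (2 * a) + q)) := by
          rw [← pow_mul, ← pow_add, ← pow_add, ← pow_add]
      _ ≤ p ^ (20 * a ^ 2 + q) := by
          apply Nat.pow_le_pow_right (by omega)
          rcases Nat.eq_zero_or_pos a with h0 | h0
          · subst h0
            simp
          · nlinarith
  have k4 : ((codes p a).ncard : ℝ) ≤ (p : ℝ) ^ (20 * a ^ 2 + q) := by exact_mod_cast k3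
  refine k4.trans ?_
  rw [← Real.rpow_natCast]
  apply Real.rpow_le_rpow_of_exponent_le hp1
  push_cast
  have k5 : ((q : ℕ) : ℝ) ≤ 14 / 27 * (a : ℝ) ^ 3 := by
    have h1 : 27 * q ≤ 14 * a ^ 3 := Nat.mul_div_le _ _
    have h2 : 27 * ((q : ℕ) : ℝ) ≤ 14 * (a : ℝ) ^ 3 := by exact_mod_cast h1
    linarith
  linarith

/-- the exponent of the lower bound -/
theorem lower_num {a : ℕ} (ha : 1 ≤ a) :
    ∃ w r : ℕ, 1 + (w + r) + w = 2 * a ∧
      (16 / 27 * (a : ℝ) ^ 3 - 10 * (a : ℝ) ^ 2 : ℝ) ≤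
        (w * (w + r).choose 2 : ℕ) - (((w + r + 1) * (w + r) + w ^ 2 : ℕ) : ℝ) := by
  rcases Nat.eq_or_lt_of_le ha with h1 | h1
  · refine ⟨0, 1, by omega, ?_⟩
    rw [← h1]
    norm_num
  · have hw1 : 3 * (2 * a / 3) ≤ 2 * a := Nat.mul_div_le _ _
    have hw2 : 2 * a ≤ 3 * (2 * a / 3) + 2 := by omega
    refine ⟨2 * a / 3, 2 * a - 1 - 2 * (2 * a / 3), by omega, ?_⟩
    set w : ℕ := 2 * a / 3 with hw
    set r : ℕ := 2 * a - 1 - 2 * w with hr
    have hv : w + r + w + 1 = 2 * a := by omega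
    set v : ℕ := w + r with hv'
    have a2 : (2 : ℝ) ≤ (a : ℝ) := by exact_mod_cast h1
    have e1 : 3 * (w : ℝ) ≤ 2 * (a : ℝ) := by exact_mod_cast hw1
    have e2 : 2 * (a : ℝ) ≤ 3 * (w : ℝ) + 2 := by exact_mod_cast hw2
    have e3 : (v : ℝ) + (w : ℝ) + 1 = 2 * (a : ℝ) := by exact_mod_cast hv
    push_cast
    rw [choose_real v]
    set A : ℝ := (a : ℝ)
    set W : ℝ := (w : ℝ)
    set V : ℝ := (v : ℝ)
    have v1 : 4 * A / 3 - 1 ≤ V := by linarith
    have v2 : V ≤ (4 * A - 1) / 3 := by linarith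
    have c1 : (4 * A / 3 - 1) * (4 * A / 3 - 2) ≤ V * (V - 1) := by
      apply mul_le_mul v1 (by linarith) (by linarith) (by linarith)
    have c2 : (2 * A - 2) / 3 * ((4 * A / 3 - 1) * (4 * A / 3 - 2)) ≤ W * (V * (V - 1)) := by
      apply mul_le_mul (by linarith) c1
      · exact mul_nonneg (by linarith) (by linarith)
      · linarith
    have c3 : (V + 1) * V ≤ ((4 * A - 1) / 3 + 1) * ((4 * A - 1) / 3) := by
      apply mul_le_mul (by linarith) v2 (by linarith) (by linarith)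
    have c4 : W ^ 2 ≤ (2 * A / 3) ^ 2 := by
      apply pow_le_pow_left₀ (by linarith) (by linarith)
    nlinarith

end Pool.Agent.Lib_MP_53dcbc_np
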