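import Pool.Agent.Lib_MP_53dcbc_np.Gam
import Pool.Agent.Lib_MP_53dcbc_np.ExistC
import Pool.Agent.Lib_MP_53dcbc_np.Num
import Pool.Agent.Lib_MP_53dcbc_np.LowerB

/-!
# [NP-M] Assembly

`upper`: choose for every type in `types (p ^ (2 a)) (ClassTwo ∧ HasPCP)` a group structure with the property
and (`exists_code`) a code; the map is injective by `iso_of_rel` (`Good.prod_n`), so
`numTypes ≤ (codes p a).ncard`.
-/

set_option autoImplicit false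

namespace Pool.Agent.Lib_MP_53dcbc_np

open Finset

private theorem equiv_of_mulEquiv {α β : Type} (g : Group α) (h : Group β) (e : α ≃* β) :
    ∃ f : α ≃ β, ∀ x y, f (g.mul x y) = h.mul (f x) (f y) :=
  ⟨e.toEquiv, e.map_mul'⟩

theorem upper {p a : ℕ} (hp : p.Prime) :
    numTypes (p ^ (2 * a)) (fun G _ => ClassTwo G ∧ HasPCP (p ^ a) 2 G) ≤ (codes p a).ncard := by
  classical
  set N := p ^ (2 * a) with hN
  have hex : ∀ c : Quotient (isoSetoid N),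
      c ∈ types N (fun G _ => ClassTwo G ∧ HasPCP (p ^ a) 2 G) →
      ∃ g : Group (Fin N), Quotient.mk (isoSetoid N) g = c ∧
        ∃ k ∈ codes p a, ∃ x : ℕ → Fin N, @T (Fin N) g x (2 * a) = ⊤ ∧
          @Rel (Fin N) g (2 * a) k.1.2 k.2.1 k.2.2.1 k.2.2.2 x := by
    rintro c ⟨g, hgc, hg⟩
    refine ⟨g, hgc, ?_⟩
    exact @exists_code (Fin N) g _ p a hp (by rw [Nat.card_fin]) hg.1 hg.2
  choose g hg k hk x hx hR using hex
  refine Set.ncard_le_ncard_of_injOn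
    (fun c => if h : c ∈ types N (fun G _ => ClassTwo G ∧ HasPCP (p ^ a) 2 G) then k c h else
      ((0, 0), fun _ => 0, fun _ _ => 0, fun _ _ _ => 0)) (fun c hc => ?_) ?_ (codes_le hp).1
  · change (if h : c ∈ types N (fun G _ => ClassTwo G ∧ HasPCP (p ^ a) 2 G) then k c h else _) ∈ _
    rw [dif_pos hc]
    exact hk c hc
  intro c hc c' hc' hcc
  change (if h : c ∈ types N (fun G _ => ClassTwo G ∧ HasPCP (p ^ a) 2 G) then k c h else _) =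
    (if h : c' ∈ types N (fun G _ => ClassTwo G ∧ HasPCP (p ^ a) 2 G) then k c' h else _) at hcc
  rw [dif_pos hc, dif_pos hc'] at hcc
  have h1 := hk c hc
  have hgood : Good p a (k c hc).1.1 (k c hc).1.2 (k c hc).2.1 (k c hc).2.2.1 (k c hc).2.2.2 :=
    h1.2.2
  have hm : (k c hc).1.2 ≤ 2 * a := le_trans (Nat.le_add_right _ _) h1.1
  have hR1 := hR c hc
  have hR2 := hR c' hc'
  rw [← hcc] at hR2
  obtain ⟨e⟩ := @iso_of_rel (Fin N) (Fin N) (g c hc) _ (g c' hc') _ (2 * a) (k c hc).1.2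
    (k c hc).2.1 (k c hc).2.2.1 (k c hc).2.2.2 (x c hc) (x c' hc') hR1 hR2 hm hgood.N_pos
    (hx c hc) (hx c' hc')
    (by rw [Nat.card_fin, hgood.prod_n]) (by rw [Nat.card_fin, hgood.prod_n])
  rw [← hg c hc, ← hg c' hc']
  exact Quotient.sound (equiv_of_mulEquiv (g c hc) (g c' hc') e)

theorem main {p a : ℕ} (hp : p.Prime) (ha : 1 ≤ a) :
    (numTypes (p ^ (2 * a)) (fun G _ => ClassTwo G ∧ HasPCP (p ^ a) 2 G) : ℝ) ≤
      (p : ℝ) ^ (30 * (a : ℝ) ^ 2 - 2 / 27 * (a : ℝ) ^ 3 : ℝ) *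
        numTypes (p ^ (2 * a)) (fun G _ => ClassTwo G) := by
  have hp1 : (1 : ℝ) < p := by exact_mod_cast hp.one_lt
  have hp0 : (0 : ℝ) < p := by linarith
  obtain ⟨w, r, hwr, hnum⟩ := lower_num ha
  have h1 : (numTypes (p ^ (2 * a)) (fun G _ => ClassTwo G ∧ HasPCP (p ^ a) 2 G) : ℝ) ≤
      (p : ℝ) ^ (14 / 27 * (a : ℝ) ^ 3 + 20 * (a : ℝ) ^ 2 : ℝ) :=
    (Nat.cast_le.2 (upper hp)).trans (codes_le hp).2
  have h2 := lower (p := p) (w := w) (r := r) hp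
  rw [hwr] at h2
  have h3 : ((p : ℝ) ^ (w * (w + r).choose 2)) ≤
      (p : ℝ) ^ ((w + r + 1) * (w + r) + w ^ 2) *
        numTypes (p ^ (2 * a)) (fun G _ => ClassTwo G) := by exact_mod_cast h2
  set L : ℝ := ((numTypes (p ^ (2 * a)) (fun G _ => ClassTwo G) : ℕ) : ℝ) with hL
  have h4 : (p : ℝ) ^ (16 / 27 * (a : ℝ) ^ 3 - 10 * (a : ℝ) ^ 2 : ℝ) ≤ L := by
    have h5 : (p : ℝ) ^ (16 / 27 * (a : ℝ) ^ 3 - 10 * (a : ℝ) ^ 2 : ℝ) ≤
        (p : ℝ) ^ ((w * (w + r).choose 2 : ℕ) - (((w + r + 1) * (w + r) + w ^ 2 : ℕ) : ℝ) : ℝ) :=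
      Real.rpow_le_rpow_of_exponent_le hp1.le hnum
    refine h5.trans ?_
    rw [Real.rpow_sub hp0, Real.rpow_natCast, Real.rpow_natCast, div_le_iff₀ (by positivity)]
    exact h3.trans_eq (mul_comm _ _)
  calc (numTypes (p ^ (2 * a)) (fun G _ => ClassTwo G ∧ HasPCP (p ^ a) 2 G) : ℝ)
      ≤ (p : ℝ) ^ (14 / 27 * (a : ℝ) ^ 3 + 20 * (a : ℝ) ^ 2 : ℝ) := h1
    _ = (p : ℝ) ^ (30 * (a : ℝ) ^ 2 - 2 / 27 * (a : ℝ) ^ 3 : ℝ) *
          (p : ℝ) ^ (16 / 27 * (a : ℝ) ^ 3 - 10 * (a : ℝ) ^ 2 : ℝ) := by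
        rw [← Real.rpow_add hp0]
        congr 1
        ring
    _ ≤ _ := mul_le_mul_of_nonneg_left h4 (by positivity)

end Pool.Agent.Lib_MP_53dcbc_np
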