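import Pool.Agent.Lib_MP_53dcbc_np.Defs

/-!
# [NP-R] Sequences of generators and normal forms

`T x i` is the subgroup generated by `x 0, ..., x (i - 1)`; `wd x e i = x_{i-1}^{e_{i-1}} ... x_0^{e_0}`.

PROOFS.
* `T_succ`: `T x (i + 1) = zpowers (x i) ⊔ T x i` (`Set.Iio (i + 1) = insert i (Set.Iio i)`,
  `Subgroup.closure_insert` or the like).
* `wd_mem`: induction on `i`.
* `map_wd`: induction on `i`.
* `nf`: induction on `i`. `y ∈ T x (i + 1) = zpowers (x i) ⊔ T x i`, `T x i` is normal, so `y = x i ^ k * t`,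
  `k : ℤ`, `t ∈ T x i` (`Subgroup.mem_sup_of_normal_right`); with `k = k % N i + N i * (k / N i)` and
  `x i ^ N i ∈ T x i` we may take `0 ≤ k < N i`; apply the induction hypothesis to `t` and change the
  value of `e` at `i` (`wd x e i` depends only on the values of `e` below `i`: `wd_congr`).
* `card_T_le`: by `nf` every element of `T x i` is `wd x e i` with `e l < N l`: the map from the
  functions `(l : Fin i) → Fin (N l)` (card `∏ N l`) to `T x i` is onto. (Or by induction on `i`.)
* `normal_T`: for `i ≤ m` the subgroup `T x i` lies in the center; for `m ≤ i` it contains all commutators.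
-/

set_option autoImplicit false

namespace Pool.Agent.Lib_MP_53dcbc_np

open Finset

theorem T_zero {G : Type} [Group G] (x : ℕ → G) : T x 0 = ⊥ := by
  have h : x '' Set.Iio 0 = ∅ := by
    ext y
    simp
  rw [T, h, Subgroup.closure_empty]

theorem T_succ {G : Type} [Group G] (x : ℕ → G) (i : ℕ) :
    T x (i + 1) = Subgroup.zpowers (x i) ⊔ T x i := by
  have h : Set.Iio (i + 1) = insert i (Set.Iio i) := by
    ext l
    simp only [Set.mem_Iio, Set.mem_insert_iff]
    omega
  rw [T, T, h, Set.image_insert_eq, Set.insert_eq, Subgroup.closure_union,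
    ← Subgroup.zpowers_eq_closure]

theorem T_mono {G : Type} [Group G] (x : ℕ → G) {i j : ℕ} (h : i ≤ j) : T x i ≤ T x j :=
  Subgroup.closure_mono (Set.image_mono (Set.Iio_subset_Iio h))

theorem mem_T {G : Type} [Group G] (x : ℕ → G) {i l : ℕ} (h : l < i) : x l ∈ T x i :=
  Subgroup.subset_closure ⟨l, h, rfl⟩

theorem wd_mem {G : Type} [Group G] (x : ℕ → G) (e : ℕ → ℕ) (i : ℕ) : wd x e i ∈ T x i := by
  induction i with
  | zero => exact Subgroup.one_mem _
  | succ i ih =>
    exact Subgroup.mul_mem _ (Subgroup.pow_mem _ (mem_T x (Nat.lt_succ_self i)) _)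
      (T_mono x (Nat.le_succ i) ih)

theorem wd_congr {G : Type} [Group G] (x : ℕ → G) {e e' : ℕ → ℕ} (i : ℕ)
    (h : ∀ l < i, e l = e' l) : wd x e i = wd x e' i := by
  induction i with
  | zero => rfl
  | succ i ih =>
    rw [wd, wd, h i (Nat.lt_succ_self i), ih fun l hl => h l (Nat.lt_succ_of_lt hl)]

/-- zero exponents at the end do not matter -/
theorem wd_extend {G : Type} [Group G] (x : ℕ → G) (e : ℕ → ℕ) {i j : ℕ} (hij : i ≤ j)
    (h : ∀ l, i ≤ l → l < j → e l = 0) : wd x e j = wd x e i := by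
  induction j, hij using Nat.le_induction with
  | base => rfl
  | succ j hj ih =>
    rw [wd, h j hj (Nat.lt_succ_self j), pow_zero, one_mul]
    exact ih fun l hl hlj => h l hl (Nat.lt_succ_of_lt hlj)

theorem map_wd {G H : Type} [Group G] [Group H] (f : G →* H) (x : ℕ → G) (e : ℕ → ℕ) (i : ℕ) :
    f (wd x e i) = wd (fun l => f (x l)) e i := by
  induction i with
  | zero => exact map_one f
  | succ i ih => rw [wd, wd, map_mul, map_pow, ih]

theorem nf {G : Type} [Group G] (x : ℕ → G) (N : ℕ → ℕ) (n : ℕ)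
    (hn : ∀ i < n, (T x i).Normal) (hN : ∀ i < n, 0 < N i) (hp : ∀ i < n, x i ^ N i ∈ T x i) :
    ∀ i ≤ n, ∀ y ∈ T x i, ∃ e : ℕ → ℕ, (∀ l < i, e l < N l) ∧ (∀ l, i ≤ l → e l = 0) ∧
      wd x e i = y := by
  intro i
  induction i with
  | zero =>
    intro _ y hy
    rw [T_zero, Subgroup.mem_bot] at hy
    exact ⟨fun _ => 0, fun l hl => absurd hl (Nat.not_lt_zero l), fun _ _ => rfl, hy.symm⟩
  | succ i ih =>
    intro hi y hy
    have hin : i < n := hi
    have := hn i hin
    rw [T_succ, Subgroup.mem_sup_of_normal_right] at hy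
    obtain ⟨u, hu, t, ht, rfl⟩ := hy
    obtain ⟨k, rfl⟩ := Subgroup.mem_zpowers_iff.1 hu
    have hNi : (0 : ℤ) < (N i : ℤ) := by exact_mod_cast hN i hin
    obtain ⟨r, hr⟩ : ∃ r : ℕ, (r : ℤ) = k % (N i : ℤ) :=
      ⟨(k % (N i : ℤ)).toNat, Int.toNat_of_nonneg (Int.emod_nonneg _ hNi.ne')⟩
    have hrN : r < N i := by
      have := Int.emod_lt_of_pos k hNi
      rw [← hr] at this
      exact_mod_cast this
    have hk : x i ^ k = x i ^ r * (x i ^ N i) ^ (k / (N i : ℤ)) := by
      rw [← zpow_natCast (x i) r, ← zpow_natCast (x i) (N i), ← zpow_mul, ← zpow_add, hr]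
      congr 1
      exact (Int.emod_add_mul_ediv k (N i : ℤ)).symm
    have ht' : (x i ^ N i) ^ (k / (N i : ℤ)) * t ∈ T x i :=
      Subgroup.mul_mem _ (Subgroup.zpow_mem _ (hp i hin) _) ht
    obtain ⟨e, he1, he2, he3⟩ := ih hin.le _ ht'
    refine ⟨Function.update e i r, ?_, ?_, ?_⟩
    · intro l hl
      by_cases hli : l = i
      · subst hli
        rw [Function.update_self]
        exact hrN
      · rw [Function.update_of_ne hli]
        exact he1 l (by omega)
    · intro l hl
      rw [Function.update_of_ne (by omega)]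
      exact he2 l (by omega)
    · rw [wd, Function.update_self, wd_congr x (e := Function.update e i r) (e' := e) i
        (fun l hl => Function.update_of_ne (by omega) _ _), he3, ← mul_assoc, ← hk]

theorem card_T_le {G : Type} [Group G] [Finite G] (x : ℕ → G) (N : ℕ → ℕ) (n : ℕ)
    (hn : ∀ i < n, (T x i).Normal) (hN : ∀ i < n, 0 < N i) (hp : ∀ i < n, x i ^ N i ∈ T x i) :
    ∀ i ≤ n, Nat.card (T x i) ≤ ∏ l ∈ range i, N l := by
  classical
  intro i hi
  have hsurj : Function.Surjective (fun g : (l : Fin i) → Fin (N l) =>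
      (⟨wd x (fun l => if h : l < i then (g ⟨l, h⟩ : ℕ) else 0) i, wd_mem x _ i⟩ : T x i)) := by
    rintro ⟨y, hy⟩
    obtain ⟨e, he1, _, he3⟩ := nf x N n hn hN hp i hi y hy
    refine ⟨fun l => ⟨e l, he1 l l.2⟩, Subtype.ext ?_⟩
    change wd x _ i = y
    rw [← he3]
    refine wd_congr x i fun l hl => ?_
    rw [dif_pos hl]
  have h1 := Nat.card_le_card_of_surjective _ hsurj
  refine le_trans h1 (le_of_eq ?_)
  rw [Nat.card_pi]
  simp only [Nat.card_eq_fintype_card, Fintype.card_fin]
  exact Fin.prod_univ_eq_prod_range N i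

/-- A criterion for the normality of all `T x i`. -/
theorem normal_T {G : Type} [Group G] (x : ℕ → G) (m : ℕ)
    (hcen : ∀ i < m, x i ∈ Subgroup.center G)
    (hcom : ∀ y z : G, y * z * y⁻¹ * z⁻¹ ∈ T x m) (i : ℕ) : (T x i).Normal := by
  rcases le_total i m with h | h
  · have hle : T x i ≤ Subgroup.center G := by
      rw [T, Subgroup.closure_le]
      rintro _ ⟨l, hl, rfl⟩
      exact hcen l (lt_of_lt_of_le hl h)
    refine ⟨fun y hy g => ?_⟩
    have h1 := Subgroup.mem_center_iff.1 (hle hy) g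
    rw [h1, mul_inv_cancel_right]
    exact hy
  · refine ⟨fun y hy g => ?_⟩
    have h1 : g * y * g⁻¹ = g * y * g⁻¹ * y⁻¹ * y := by rw [inv_mul_cancel_right]
    rw [h1]
    exact Subgroup.mul_mem _ (T_mono x h (hcom g y)) hy

end Pool.Agent.Lib_MP_53dcbc_np
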